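import Mathlib

set_option autoImplicit false

/-!
# Digit strings with few changes

`dg s M i` is the digit of `M` at `s ^ i`.  A pair of adjacent digits is quiet if both are `0` or
both are `s - 1`; `nq s M L` is the number of pairs of adjacent digits among the digits
`0, ..., L` of `M` which are not quiet.
-/

namespace Pool.Agent.Lib.P1aceS

open Finset

/-- The digit at `s ^ i`. -/
def dg (s M i : ℕ) : ℕ := M / s ^ i % s

/-- A quiet pair of digits. -/
def Quiet (s d e : ℕ) : Prop := d = e ∧ (d = 0 ∨ d = s - 1)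

instance (s d e : ℕ) : Decidable (Quiet s d e) := by unfold Quiet; infer_instance

lemma quiet_comm {s d e : ℕ} : Quiet s d e ↔ Quiet s e d := by
  unfold Quiet
  constructor
  · rintro ⟨rfl, h⟩; exact ⟨rfl, h⟩
  · rintro ⟨rfl, h⟩; exact ⟨rfl, h⟩

/-- The number of pairs of adjacent digits which are not quiet. -/
def nq (s M L : ℕ) : ℕ := ∑ i ∈ range L, if Quiet s (dg s M i) (dg s M (i + 1)) then 0 else 1

lemma dg_zero (s M : ℕ) : dg s M 0 = M % s := by unfold dg; rw [pow_zero, Nat.div_one]

lemma dg_succ {s d M : ℕ} (hd : d < s) (i : ℕ) : dg s (s * M + d) (i + 1) = dg s M i := by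
  unfold dg
  rw [pow_succ', ← Nat.div_div_eq_div_mul, Nat.mul_add_div (by omega), Nat.div_eq_of_lt hd,
    add_zero]

lemma nq_step {s d M : ℕ} (hd : d < s) (L : ℕ) :
    nq s (s * M + d) (L + 1) = nq s M L + if Quiet s d (M % s) then 0 else 1 := by
  unfold nq
  rw [sum_range_succ']
  congr 1
  · refine sum_congr rfl fun i _ => ?_
    rw [dg_succ hd, dg_succ hd]
  · rw [dg_zero, dg_succ hd, dg_zero, Nat.mul_add_mod, Nat.mod_eq_of_lt hd]

/-- Splitting off the last digit. -/
lemma sum_split (s n : ℕ) (hs : 0 < s) (F : ℕ → ℝ) :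
    ∑ M ∈ range (s * n), F M = ∑ M ∈ range n, ∑ d ∈ range s, F (s * M + d) := by
  rw [← sum_product']
  symm
  refine sum_nbij' (fun p => s * p.1 + p.2) (fun M => (M / s, M % s)) ?_ ?_ ?_ ?_ ?_
  · rintro ⟨M, d⟩ h
    rw [mem_product, mem_range, mem_range] at h
    rw [mem_range]
    calc s * M + d < s * M + s := by
          have := h.2
          simp only at this ⊢
          omega
      _ = s * (M + 1) := by ring
      _ ≤ s * n := Nat.mul_le_mul_left s h.1
  · intro M h
    rw [mem_range] at h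
    rw [mem_product, mem_range, mem_range]
    exact ⟨Nat.div_lt_of_lt_mul h, Nat.mod_lt _ hs⟩
  · rintro ⟨M, d⟩ h
    rw [mem_product, mem_range, mem_range] at h
    have hd : d < s := h.2
    simp only
    rw [Nat.mul_add_div hs, Nat.div_eq_of_lt hd, add_zero, Nat.mul_add_mod, Nat.mod_eq_of_lt hd]
  · intro M _
    exact Nat.div_add_mod M s
  · rintro ⟨M, d⟩ _
    rfl

/-- The transfer matrix bound. -/
theorem transfer {s : ℕ} (hs : 0 < s) {t : ℝ} (ht : 0 ≤ t) (L : ℕ) :
    ∑ M ∈ range (s ^ (L + 1)), t ^ nq s M L ≤ s * (1 + t * s) ^ L := by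
  induction L with
  | zero =>
    have h : ∀ M, nq s M 0 = 0 := fun M => by unfold nq; rw [sum_range_zero]
    simp only [h, pow_zero, sum_const, card_range, nsmul_eq_mul, mul_one, zero_add, pow_one]
    exact le_refl _
  | succ L ih =>
    have h1 : ∑ M ∈ range (s ^ (L + 1 + 1)), t ^ nq s M (L + 1) =
        ∑ M ∈ range (s ^ (L + 1)), ∑ d ∈ range s, t ^ nq s (s * M + d) (L + 1) := by
      rw [pow_succ' s (L + 1), sum_split s _ hs]
    rw [h1]
    calc ∑ M ∈ range (s ^ (L + 1)), ∑ d ∈ range s, t ^ nq s (s * M + d) (L + 1)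
        ≤ ∑ M ∈ range (s ^ (L + 1)), t ^ nq s M L * (1 + t * s) := by
          refine sum_le_sum fun M _ => ?_
          have h2 : ∀ d ∈ range s, t ^ nq s (s * M + d) (L + 1) ≤
              t ^ nq s M L * ((if d = M % s then 1 else 0) + t) := by
            intro d hd
            rw [nq_step (mem_range.1 hd), pow_add]
            refine mul_le_mul_of_nonneg_left ?_ (pow_nonneg ht _)
            by_cases hq : Quiet s d (M % s)
            · rw [if_pos hq, if_pos hq.1, pow_zero]
              linarith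
            · rw [if_neg hq, pow_one]
              split_ifs <;> linarith
          refine (sum_le_sum h2).trans ?_
          rw [← mul_sum, sum_add_distrib, sum_const, card_range, nsmul_eq_mul, sum_ite_eq',
            if_pos (mem_range.2 (Nat.mod_lt _ hs))]
          exact le_of_eq (by ring)
      _ = (∑ M ∈ range (s ^ (L + 1)), t ^ nq s M L) * (1 + t * s) := by rw [sum_mul]
      _ ≤ s * (1 + t * s) ^ L * (1 + t * s) := by
          refine mul_le_mul_of_nonneg_right ih ?_
          have : (0 : ℝ) ≤ s := Nat.cast_nonneg _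
          positivity
      _ = s * (1 + t * s) ^ (L + 1) := by rw [pow_succ]; ring

/-- The number of strings with few changes. -/
theorem few_card {s : ℕ} (hs : 0 < s) {t κ : ℝ} (ht : 0 < t) (ht1 : t ≤ 1) (L : ℕ) :
    (((range (s ^ (L + 1))).filter fun M => (nq s M L : ℝ) ≤ κ * L).card : ℝ) ≤
      s * (t ^ (-κ) * (1 + t * s)) ^ L := by
  have h1 : (((range (s ^ (L + 1))).filter fun M => (nq s M L : ℝ) ≤ κ * L).card : ℝ) ≤
      ∑ M ∈ range (s ^ (L + 1)), t ^ (-κ * L) * t ^ nq s M L := by
    rw [card_eq_sum_ones, Nat.cast_sum]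
    calc ∑ M ∈ (range (s ^ (L + 1))).filter fun M => (nq s M L : ℝ) ≤ κ * L, ((1 : ℕ) : ℝ)
        ≤ ∑ M ∈ (range (s ^ (L + 1))).filter fun M => (nq s M L : ℝ) ≤ κ * L,
            t ^ (-κ * L) * t ^ nq s M L := by
          refine sum_le_sum fun M hM => ?_
          rw [mem_filter] at hM
          rw [Nat.cast_one, ← Real.rpow_natCast t (nq s M L), ← Real.rpow_add ht]
          have : (1 : ℝ) = t ^ (0 : ℝ) := (Real.rpow_zero t).symm
          rw [this]
          refine Real.rpow_le_rpow_of_exponent_ge ht ht1 ?_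
          linarith [hM.2]
      _ ≤ _ := by
          refine sum_le_sum_of_subset_of_nonneg (filter_subset _ _) fun M _ _ => ?_
          positivity
  refine h1.trans ?_
  rw [← mul_sum]
  calc t ^ (-κ * L) * ∑ M ∈ range (s ^ (L + 1)), t ^ nq s M L
      ≤ t ^ (-κ * L) * (s * (1 + t * s) ^ L) :=
        mul_le_mul_of_nonneg_left (transfer hs ht.le L) (by positivity)
    _ = s * (t ^ (-κ) * (1 + t * s)) ^ L := by
        rw [mul_pow, ← Real.rpow_natCast (t ^ (-κ)) L, ← Real.rpow_mul ht.le]
        ring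

/-! ### Digits of fractions -/

/-- The digit number `n` (from `0`) of the expansion of `a / b` in base `s`. -/
def fdg (s a b n : ℕ) : ℕ := a * s ^ (n + 1) / b % s

/-- The number of pairs of adjacent digits among the first `L + 1` which are not quiet. -/
def fq (s a b L : ℕ) : ℕ :=
  ∑ n ∈ range L, if Quiet s (fdg s a b n) (fdg s a b (n + 1)) then 0 else 1

lemma fdg_eq {s a b : ℕ} (hs : 0 < s) (hb : 0 < b) (n : ℕ) :
    fdg s a b n = s * (a * s ^ n % b) / b := by
  unfold fdg
  have h1 : a * s ^ (n + 1) = s * (a * s ^ n % b) + b * (s * (a * s ^ n / b)) := by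
    have h2 := Nat.mod_add_div (a * s ^ n) b
    calc a * s ^ (n + 1) = s * (a * s ^ n) := by rw [pow_succ]; ring
      _ = s * (a * s ^ n % b + b * (a * s ^ n / b)) := by rw [h2]
      _ = _ := by ring
  rw [h1, Nat.add_mul_div_left _ _ hb, Nat.add_mul_mod_self_left]
  refine Nat.mod_eq_of_lt ?_
  rw [Nat.div_lt_iff_lt_mul hb]
  exact Nat.mul_lt_mul_of_pos_left (Nat.mod_lt _ hb) hs

lemma fdg_lt {s a b : ℕ} (hs : 0 < s) (n : ℕ) : fdg s a b n < s := Nat.mod_lt _ hs

lemma fdg_shift {s a b : ℕ} (hb : 0 < b) (i n : ℕ) :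
    fdg s (a * s ^ i % b) b n = fdg s a b (i + n) := by
  unfold fdg
  have h1 : a * s ^ (i + n + 1) = (a * s ^ i % b) * s ^ (n + 1) +
      b * ((a * s ^ i / b) * s ^ (n + 1)) := by
    have h2 := Nat.mod_add_div (a * s ^ i) b
    calc a * s ^ (i + n + 1) = (a * s ^ i) * s ^ (n + 1) := by rw [add_assoc, pow_add]; ring
      _ = (a * s ^ i % b + b * (a * s ^ i / b)) * s ^ (n + 1) := by rw [h2]
      _ = _ := by ring
  rw [h1, Nat.add_mul_div_left _ _ hb]
  have h3 : (a * s ^ i / b) * s ^ (n + 1) = s * ((a * s ^ i / b) * s ^ n) := by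
    rw [pow_succ]; ring
  rw [h3, Nat.add_mul_mod_self_left]

lemma fdg_scale {s a b g : ℕ} (hg : 0 < g) (n : ℕ) : fdg s (g * a) (g * b) n = fdg s a b n := by
  unfold fdg
  rw [mul_assoc, Nat.mul_div_mul_left _ _ hg]

lemma fq_scale {s a b g : ℕ} (hg : 0 < g) (L : ℕ) : fq s (g * a) (g * b) L = fq s a b L := by
  unfold fq
  refine sum_congr rfl fun n _ => ?_
  rw [fdg_scale hg, fdg_scale hg]

lemma fq_add {s a b : ℕ} (hb : 0 < b) (K L : ℕ) :
    fq s a b (K + L) = fq s a b K + fq s (a * s ^ K % b) b L := by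
  unfold fq
  rw [sum_range_add]
  congr 1
  refine sum_congr rfl fun n _ => ?_
  rw [fdg_shift hb, fdg_shift hb, add_assoc]

lemma fq_mono {s a b K L : ℕ} (h : K ≤ L) : fq s a b K ≤ fq s a b L := by
  unfold fq
  exact sum_le_sum_of_subset (range_mono h)

/-- Not quiet digits mean that the fraction is away from the integers. -/
theorem away {s a b : ℕ} (hs : 2 ≤ s) (hb : 0 < b) (n : ℕ)
    (h : ¬ Quiet s (fdg s a b n) (fdg s a b (n + 1))) :
    b ≤ s ^ 2 * (a * s ^ n % b) ∧ s ^ 2 * (a * s ^ n % b) ≤ (s ^ 2 - 1) * b := by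
  have hs0 : 0 < s := by omega
  set r := a * s ^ n % b with hr
  have hrb : r < b := Nat.mod_lt _ hb
  have h0 : fdg s a b n = s * r / b := fdg_eq hs0 hb n
  have h1 : fdg s a b (n + 1) = s * (s * r % b) / b := by
    rw [fdg_eq hs0 hb (n + 1)]
    congr 2
    rw [pow_succ, ← mul_assoc, mul_comm (a * s ^ n) s, Nat.mul_mod, ← hr, Nat.mul_mod s r b,
      Nat.mod_eq_of_lt hrb]
  constructor
  · by_contra hcon
    push Not at hcon
    apply h
    have h2 : s * r < b := by
      calc s * r ≤ s * (s * r) := Nat.le_mul_of_pos_left _ hs0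
        _ = s ^ 2 * r := by ring
        _ < b := hcon
    have h3 : fdg s a b n = 0 := by rw [h0]; exact Nat.div_eq_of_lt h2
    have h4 : fdg s a b (n + 1) = 0 := by
      rw [h1, Nat.mod_eq_of_lt h2]
      refine Nat.div_eq_of_lt ?_
      calc s * (s * r) = s ^ 2 * r := by ring
        _ < b := hcon
    exact ⟨by rw [h3, h4], Or.inl h3⟩
  · by_contra hcon
    push Not at hcon
    apply h
    obtain ⟨u, rfl⟩ : ∃ u, s = u + 1 := ⟨s - 1, by omega⟩
    have hu : (u + 1) ^ 2 - 1 = u * (u + 2) := by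
      have : (u + 1) ^ 2 = u * (u + 2) + 1 := by ring
      rw [this, Nat.add_sub_cancel]
    rw [hu] at hcon
    have h2 : u * b ≤ (u + 1) * r := by
      by_contra hc
      push Not at hc
      have h5 : (u + 1) ^ 2 * r + (u + 1) ≤ (u + 1) * (u * b) := by
        calc (u + 1) ^ 2 * r + (u + 1) = (u + 1) * ((u + 1) * r + 1) := by ring
          _ ≤ (u + 1) * (u * b) := Nat.mul_le_mul_left _ hc
      have h6 : (u + 1) * (u * b) ≤ u * (u + 2) * b := by
        calc (u + 1) * (u * b) = u * (u + 1) * b := by ring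
          _ ≤ u * (u + 2) * b := Nat.mul_le_mul_right _ (Nat.mul_le_mul_left _ (by omega))
      omega
    have h3 : (u + 1) * r / b = u := by
      rw [Nat.div_eq_iff hb]
      constructor
      · rw [mul_comm] at h2
        linarith
      · have h8 : (u + 1) * r < u * b + b := by
          calc (u + 1) * r < (u + 1) * b := Nat.mul_lt_mul_of_pos_left hrb hs0
            _ = u * b + b := by ring
        omega
    have h4 : (u + 1) * r % b = (u + 1) * r - b * u := by
      have := Nat.mod_add_div ((u + 1) * r) b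
      rw [h3] at this
      omega
    have h5 : (u + 1) * ((u + 1) * r % b) / b = u := by
      rw [h4]
      obtain ⟨w, hw⟩ : ∃ w, (u + 1) * r = b * u + w := ⟨(u + 1) * r - b * u, by
        rw [mul_comm b u]; omega⟩
      rw [hw, Nat.add_sub_cancel_left]
      have hw1 : w < b := by
        have : (u + 1) * r < (u + 1) * b := Nat.mul_lt_mul_of_pos_left hrb hs0
        nlinarith
      have hw2 : u * b < (u + 1) * w := by
        have h6 : (u + 1) ^ 2 * r = (u + 1) * (b * u) + (u + 1) * w := by
          calc (u + 1) ^ 2 * r = (u + 1) * ((u + 1) * r) := by ring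
            _ = (u + 1) * (b * u + w) := by rw [hw]
            _ = _ := by ring
        have h7 : u * (u + 2) * b = (u + 1) * (b * u) + u * b := by ring
        omega
      rw [Nat.div_eq_iff hb]
      constructor
      · linarith
      · have h8 : (u + 1) * w < u * b + b := by
          calc (u + 1) * w < (u + 1) * b := Nat.mul_lt_mul_of_pos_left hw1 hs0
            _ = u * b + b := by ring
        omega
    have h6 : fdg (u + 1) a b n = u := by rw [h0, h3]
    have h7 : fdg (u + 1) a b (n + 1) = u := by rw [h1, h5]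
    exact ⟨by rw [h6, h7], Or.inr (by rw [h6]; rfl)⟩

/-- The string of the first `L + 1` digits of a fraction. -/
theorem nq_frac {s a b : ℕ} (hs : 0 < s) (L : ℕ) :
    nq s (a * s ^ (L + 1) / b) L = fq s a b L := by
  have h : ∀ j, j ≤ L → dg s (a * s ^ (L + 1) / b) j = fdg s a b (L - j) := by
    intro j hj
    unfold dg fdg
    rw [Nat.div_div_eq_div_mul, mul_comm b (s ^ j)]
    have h1 : a * s ^ (L + 1) = s ^ j * (a * s ^ (L - j + 1)) := by
      have : L + 1 = j + (L - j + 1) := by omega
      rw [this, pow_add]; ring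
    rw [h1, Nat.mul_div_mul_left _ _ (pow_pos hs j)]
  unfold nq fq
  rw [← sum_range_reflect]
  refine sum_congr rfl fun i hi => ?_
  rw [mem_range] at hi
  rw [h _ (by omega), h _ (by omega)]
  have e1 : L - (L - 1 - i) = i + 1 := by omega
  have e2 : L - (L - 1 - i + 1) = i := by omega
  rw [e1, e2]
  by_cases hq : Quiet s (fdg s a b i) (fdg s a b (i + 1))
  · rw [if_pos hq, if_pos (quiet_comm.1 hq)]
  · rw [if_neg hq, if_neg (fun h' => hq (quiet_comm.1 h'))]

end Pool.Agent.Lib.P1aceS
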