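import Mathlib
import Pool.Agent.Lib.P1aceS.Digits

set_option autoImplicit false

/-!
# Denominators of fractions whose first digits have few changes
-/

namespace Pool.Agent.Lib.P1aceS

open Finset

/-- The number of digits considered for the denominator `b`. -/
def wl (s b : ℕ) : ℕ := 2 * Nat.clog s b

/-- The denominators `b` of reduced fractions `a / b` with at most `κ * wl s b` changes among the
first `wl s b + 1` digits. -/
def SparseSet (s : ℕ) (κ : ℝ) : Set ℕ :=
  {b | 2 ≤ b ∧ ∃ a, a < b ∧ Nat.Coprime a b ∧ (fq s a b (wl s b) : ℝ) ≤ κ * wl s b}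

lemma inj_aux {S a b a' b' : ℕ} (hb : 0 < b) (hb' : 0 < b') (hS : b * b' ≤ S)
    (h : a * S / b = a' * S / b') (hab : Nat.Coprime a b) (hab' : Nat.Coprime a' b') :
    b = b' := by
  set M := a * S / b with hM
  have h1 : b * M ≤ a * S := Nat.mul_div_le _ _
  have h2 : a * S < b * (M + 1) := Nat.lt_mul_div_succ _ hb
  have h3 : b' * M ≤ a' * S := by rw [h]; exact Nat.mul_div_le _ _
  have h4 : a' * S < b' * (M + 1) := by rw [h]; exact Nat.lt_mul_div_succ _ hb'
  have key : ∀ {x y u v : ℕ}, 0 < u → 0 < v → u * v ≤ S → v * M ≤ y * S → x * S < u * (M + 1) →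
      x * v ≤ y * u := by
    intro x y u v hu hv huv hy hx
    by_contra hcon
    push Not at hcon
    have h5 : y * u * S + S ≤ x * v * S := by
      calc y * u * S + S = (y * u + 1) * S := by ring
        _ ≤ x * v * S := Nat.mul_le_mul_right _ hcon
    have h6 : x * v * S < u * v * M + u * v := by
      calc x * v * S = v * (x * S) := by ring
        _ < v * (u * (M + 1)) := Nat.mul_lt_mul_of_pos_left hx hv
        _ = _ := by ring
    have h7 : u * v * M ≤ y * u * S := by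
      calc u * v * M = u * (v * M) := by ring
        _ ≤ u * (y * S) := Nat.mul_le_mul_left _ hy
        _ = _ := by ring
    omega
  have h5 : a * b' ≤ a' * b := key hb hb' hS h3 h2
  have h6 : a' * b ≤ a * b' := key hb' hb (by rwa [mul_comm]) h1 h4
  have h7 : a * b' = a' * b := le_antisymm h5 h6
  apply Nat.dvd_antisymm
  · have h8 : b ∣ a * b' := by rw [h7]; exact Dvd.intro_left _ rfl
    exact hab.symm.dvd_of_dvd_mul_left h8
  · have h8 : b' ∣ a' * b := by rw [← h7]; exact Dvd.intro_left _ rfl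
    exact hab'.symm.dvd_of_dvd_mul_left h8

theorem block_card {s : ℕ} (hs : 2 ≤ s) {t κ : ℝ} (ht : 0 < t) (ht1 : t ≤ 1) (m : ℕ)
    (F : Finset ℕ) (hF : ∀ b ∈ F, b ∈ SparseSet s κ ∧ Nat.clog s b = m) :
    (F.card : ℝ) ≤ s * (t ^ (-κ) * (1 + t * s)) ^ (2 * m) := by
  have hs0 : 0 < s := by omega
  refine le_trans ?_ (few_card hs0 (κ := κ) ht ht1 (2 * m))
  have hex : ∀ b : ℕ, ∃ a, b ∈ F → a < b ∧ Nat.Coprime a b ∧
      (fq s a b (2 * m) : ℝ) ≤ κ * ((2 * m : ℕ) : ℝ) := by
    intro b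
    by_cases hb : b ∈ F
    · obtain ⟨⟨-, a, h1, h2, h3⟩, h4⟩ := hF b hb
      refine ⟨a, fun _ => ⟨h1, h2, ?_⟩⟩
      unfold wl at h3
      rwa [h4] at h3
    · exact ⟨0, fun h => absurd h hb⟩
  choose a ha using hex
  have hpow : ∀ b ∈ F, 0 < b ∧ b ≤ s ^ m := by
    intro b hb
    obtain ⟨⟨h1, -⟩, h4⟩ := hF b hb
    refine ⟨by omega, ?_⟩
    rw [← h4]
    exact Nat.le_pow_clog (by omega) b
  refine Nat.cast_le.2 (card_le_card_of_injOn (fun b => a b * s ^ (2 * m + 1) / b) ?_ ?_)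
  · intro b hb
    rw [mem_coe] at hb
    obtain ⟨h1, h2, h3⟩ := ha b hb
    rw [mem_coe, mem_filter, mem_range]
    constructor
    · rw [Nat.div_lt_iff_lt_mul (hpow b hb).1, mul_comm]
      exact Nat.mul_lt_mul_of_pos_left h1 (pow_pos hs0 _)
    · simp only
      rw [nq_frac hs0]
      exact h3
  · intro b hb b' hb' h
    rw [mem_coe] at hb hb'
    obtain ⟨h1, h2, -⟩ := ha b hb
    obtain ⟨h1', h2', -⟩ := ha b' hb'
    refine inj_aux (hpow b hb).1 (hpow b' hb').1 ?_ h h2 h2'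
    calc b * b' ≤ s ^ m * s ^ m := Nat.mul_le_mul (hpow b hb).2 (hpow b' hb').2
      _ = s ^ (2 * m) := by rw [← pow_add]; congr 1; ring
      _ ≤ s ^ (2 * m + 1) := Nat.pow_le_pow_right hs0 (Nat.le_succ _)

theorem sparse_card {s : ℕ} (hs : 2 ≤ s) {t κ : ℝ} (ht : 0 < t) (ht1 : t ≤ 1) (X : ℕ)
    (F : Finset ℕ) (hF : ∀ b ∈ F, b ∈ SparseSet s κ ∧ b ≤ X) :
    (F.card : ℝ) ≤ ∑ m ∈ range (Nat.clog s X + 1),
      s * (t ^ (-κ) * (1 + t * s)) ^ (2 * m) := by
  classical
  have h1 : F.card = ∑ m ∈ range (Nat.clog s X + 1), (F.filter fun b => Nat.clog s b = m).card := by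
    refine card_eq_sum_card_fiberwise fun b hb => ?_
    rw [mem_coe] at hb
    rw [mem_coe, mem_range, Nat.lt_succ_iff]
    exact Nat.clog_mono_right _ (hF b hb).2
  rw [h1]
  push_cast
  refine sum_le_sum fun m _ => block_card hs ht ht1 m _ fun b hb => ?_
  rw [mem_filter] at hb
  exact ⟨(hF b hb.1).1, hb.2⟩

/-- Many changes in all windows. -/
lemma windows {s q : ℕ} {κ : ℝ} (hq : 2 ≤ q) (hcop : Nat.Coprime s q)
    (hB : q ∉ SparseSet s κ) (J : ℕ) : ∀ a : ℕ, Nat.Coprime a q →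
      κ * (J * wl s q : ℕ) ≤ fq s a q (J * wl s q) := by
  have hq0 : 0 < q := by omega
  induction J with
  | zero =>
    intro a _
    rw [Nat.zero_mul, Nat.cast_zero, mul_zero]
    exact Nat.cast_nonneg _
  | succ J ih =>
    intro a ha
    have e : (J + 1) * wl s q = wl s q + J * wl s q := by ring
    rw [e, fq_add hq0]
    push_cast
    have h0 : fq s a q (wl s q) = fq s (a % q) q (wl s q) := by
      have h := fun n => fdg_shift (s := s) (a := a) hq0 0 n
      simp only [pow_zero, mul_one, zero_add] at h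
      unfold fq
      refine sum_congr rfl fun n _ => ?_
      rw [h, h]
    have h1 : κ * wl s q ≤ fq s a q (wl s q) := by
      rw [h0]
      by_contra hcon
      push Not at hcon
      refine hB ⟨hq, a % q, Nat.mod_lt _ hq0, ?_, hcon.le⟩
      rw [Nat.coprime_iff_gcd_eq_one, ← Nat.gcd_rec, Nat.gcd_comm]
      exact ha
    have h2 := ih (a * s ^ wl s q % q) (by
      rw [Nat.coprime_iff_gcd_eq_one, ← Nat.gcd_rec, Nat.gcd_comm]
      exact Nat.Coprime.mul_left ha (Nat.Coprime.pow_left _ hcop))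
    push_cast at h2
    linarith

/-- Many changes for all fractions that are not killed by `b`. -/
theorem many_changes {s q b : ℕ} {κ : ℝ} (hs : 2 ≤ s) (hκ : 0 ≤ κ) (hq : 0 < q)
    (hcop : Nat.Coprime s q) (hB : ∀ c ∈ SparseSet s κ, c ∣ q → c ∣ b) (α : ℕ)
    (hα : ¬ q ∣ b * α) {L : ℕ} (hL : 2 * wl s q ≤ L) : κ * L / 2 ≤ fq s α q L := by
  set g := Nat.gcd α q with hg
  have hg0 : 0 < g := Nat.gcd_pos_of_pos_right _ hq
  obtain ⟨q', hq'⟩ : g ∣ q := Nat.gcd_dvd_right _ _
  obtain ⟨α', hα'⟩ : g ∣ α := Nat.gcd_dvd_left _ _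
  have hcop' : Nat.Coprime α' q' := by
    have h := Nat.coprime_div_gcd_div_gcd (m := α) (n := q) hg0
    rw [← hg] at h
    have e1 : α / g = α' := by rw [hα']; exact Nat.mul_div_cancel_left _ hg0
    have e2 : q / g = q' := by
      conv_lhs => rw [hq']
      exact Nat.mul_div_cancel_left _ hg0
    rwa [e1, e2] at h
  have hq'0 : 0 < q' := by
    rcases Nat.eq_zero_or_pos q' with h | h
    · rw [h, Nat.mul_zero] at hq'; omega
    · exact h
  have hnd : ¬ q' ∣ b := by
    intro h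
    apply hα
    rw [hq', hα']
    obtain ⟨w, hw⟩ := h
    exact ⟨w * α', by rw [hw]; ring⟩
  have hq'2 : 2 ≤ q' := by
    by_contra h
    have : q' = 1 := by omega
    exact hnd (by rw [this]; exact one_dvd _)
  have hdvd : q' ∣ q := ⟨g, by rw [hq']; ring⟩
  have hnB : q' ∉ SparseSet s κ := fun h => hnd (hB q' h hdvd)
  have hscop : Nat.Coprime s q' := Nat.Coprime.coprime_dvd_right hdvd hcop
  have hfq : fq s α q L = fq s α' q' L := by
    conv_lhs => rw [hα', hq']
    exact fq_scale hg0 L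
  rw [hfq]
  set L' := wl s q' with hL'
  have hL'0 : 0 < L' := by
    have : 0 < Nat.clog s q' := Nat.clog_pos (by omega) hq'2
    rw [hL']; unfold wl; omega
  have hLL : L' ≤ wl s q := by
    rw [hL']; unfold wl
    exact Nat.mul_le_mul_left _ (Nat.clog_mono_right _ (Nat.le_of_dvd hq hdvd))
  have h1 := windows hq'2 hscop hnB (L / L') α' hcop'
  rw [← hL'] at h1
  have h2 : L / L' * L' ≤ L := Nat.div_mul_le_self _ _
  have h3 : L < L / L' * L' + L' := by
    have := Nat.lt_div_mul_add hL'0 (a := L)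
    exact this
  have h4 : fq s α' q' (L / L' * L') ≤ fq s α' q' L := fq_mono h2
  have h5 : L ≤ 2 * (L / L' * L') := by omega
  have h6 : (L : ℝ) ≤ 2 * ((L / L' * L' : ℕ) : ℝ) := by exact_mod_cast h5
  have h7 : (fq s α' q' (L / L' * L') : ℝ) ≤ fq s α' q' L := by exact_mod_cast h4
  nlinarith

end Pool.Agent.Lib.P1aceS
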