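import Mathlib
import Pool.Agent.Lib.P1aceS.Sparse

set_option autoImplicit false

/-!
# The size of the exceptional set
-/

namespace Pool.Agent.Lib.P1aceS

open Finset

lemma rem_step {s c : ℕ} (hs : 0 < s) (hc : 0 < c) (a n : ℕ) :
    s * (a * s ^ n % c) = c * fdg s a c n + a * s ^ (n + 1) % c := by
  rw [fdg_eq hs hc n]
  have h1 : a * s ^ (n + 1) % c = s * (a * s ^ n % c) % c := by
    rw [pow_succ, ← mul_assoc, mul_comm (a * s ^ n) s, Nat.mul_mod, Nat.mul_mod s (a * s ^ n % c) c,
      Nat.mod_mod]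
  rw [h1]
  exact (Nat.div_add_mod _ _).symm

/-- There is a change. -/
theorem one_le_fq {s a c L : ℕ} (hs : 2 ≤ s) (ha : 0 < a) (hac : a < c) (hL : 0 < L)
    (hcL : c ≤ s ^ L) : 1 ≤ fq s a c L := by
  have hs0 : 0 < s := by omega
  have hc : 0 < c := by omega
  by_contra hcon
  have h0 : fq s a c L = 0 := by omega
  unfold fq at h0
  rw [sum_eq_zero_iff] at h0
  have hQ : ∀ n, n < L → Quiet s (fdg s a c n) (fdg s a c (n + 1)) := by
    intro n hn
    by_contra h
    have := h0 n (mem_range.2 hn)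
    rw [if_neg h] at this
    exact one_ne_zero this
  have heq : ∀ n, n ≤ L → fdg s a c n = fdg s a c 0 := by
    intro n
    induction n with
    | zero => intro _; rfl
    | succ n ih =>
      intro hn
      rw [← (hQ n (by omega)).1]
      exact ih (by omega)
  rcases (hQ 0 hL).2 with h | h
  · have hr : ∀ n, n ≤ L → a * s ^ n % c = s ^ n * a := by
      intro n
      induction n with
      | zero => intro _; rw [pow_zero, mul_one, one_mul, Nat.mod_eq_of_lt hac]
      | succ n ih =>
        intro hn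
        have h1 := rem_step hs0 hc a n
        rw [heq n (by omega), h, Nat.mul_zero, zero_add, ih (by omega)] at h1
        rw [← h1, pow_succ]; ring
    have h2 := hr L (le_refl _)
    have h3 : a * s ^ L % c < c := Nat.mod_lt _ hc
    have h4 : s ^ L ≤ s ^ L * a := Nat.le_mul_of_pos_right _ ha
    omega
  · obtain ⟨u, rfl⟩ : ∃ u, s = u + 1 := ⟨s - 1, by omega⟩
    rw [Nat.add_sub_cancel] at h
    have hr : ∀ n, n ≤ L → a * (u + 1) ^ n % c + (u + 1) ^ n * (c - a) = c := by
      intro n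
      induction n with
      | zero =>
        intro _
        rw [pow_zero, mul_one, one_mul, Nat.mod_eq_of_lt hac]; omega
      | succ n ih =>
        intro hn
        have h1 := rem_step hs0 hc a n
        rw [heq n (by omega), h] at h1
        have h2 := ih (by omega)
        have h3 : (u + 1) * (a * (u + 1) ^ n % c) + (u + 1) ^ (n + 1) * (c - a) = (u + 1) * c := by
          calc (u + 1) * (a * (u + 1) ^ n % c) + (u + 1) ^ (n + 1) * (c - a) =
                (u + 1) * (a * (u + 1) ^ n % c + (u + 1) ^ n * (c - a)) := by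
                rw [pow_succ]; ring
            _ = _ := by rw [h2]
        rw [h1] at h3
        have h4 : (u + 1) * c = c * u + c := by ring
        omega
    have h2 := hr L (le_refl _)
    have h4 : (u + 1) ^ L ≤ (u + 1) ^ L * (c - a) := Nat.le_mul_of_pos_right _ (by omega)
    have h5 : a * (u + 1) ^ L % c = 0 := by omega
    -- the fraction is an integer over a power of the base: the next digit is `0`
    have h6 := rem_step hs0 hc a L
    rw [h5, Nat.mul_zero, heq L (le_refl _), h] at h6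
    have h7 : 0 < c * u := Nat.mul_pos hc (by omega)
    omega

/-- The elements are large. -/
theorem clog_large {s c : ℕ} {κ : ℝ} (hs : 2 ≤ s) (hc : c ∈ SparseSet s κ) :
    1 ≤ 2 * κ * Nat.clog s c := by
  obtain ⟨hc2, a, hac, hcop, hfq⟩ := hc
  have ha : 0 < a := by
    rcases Nat.eq_zero_or_pos a with h | h
    · rw [h, Nat.coprime_zero_left] at hcop; omega
    · exact h
  have hn : 0 < Nat.clog s c := Nat.clog_pos (by omega) hc2
  have h1 : 1 ≤ fq s a c (wl s c) := by
    refine one_le_fq hs ha hac (by unfold wl; omega) ?_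
    refine (Nat.le_pow_clog (by omega) c).trans (Nat.pow_le_pow_right (by omega) ?_)
    unfold wl; omega
  have h2 : (1 : ℝ) ≤ fq s a c (wl s c) := by exact_mod_cast h1
  have h3 : ((wl s c : ℕ) : ℝ) = 2 * Nat.clog s c := by unfold wl; push_cast; ring
  rw [h3] at hfq
  linarith

/-- The parameter. -/
noncomputable def kap (σ : ℝ) : ℝ := Real.exp (-(10 * σ))

lemma kap_pos (σ : ℝ) : 0 < kap σ := Real.exp_pos _

lemma kap_eq (σ : ℝ) : kap σ = 1 / Real.exp σ ^ 10 := by
  unfold kap
  rw [Real.exp_neg, one_div, ← Real.exp_nat_mul]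
  norm_num

lemma E_large {σ : ℝ} (hσ : 1 ≤ σ) : 2.7 ≤ Real.exp σ := by
  have h1 := Real.exp_one_gt_d9
  have h2 : Real.exp 1 ≤ Real.exp σ := Real.exp_le_exp.2 hσ
  linarith

lemma E8_large {σ : ℝ} (hσ : 1 ≤ σ) : 1024 ≤ Real.exp σ ^ 8 := by
  have h := pow_le_pow_left₀ (by norm_num) (E_large hσ) 8
  refine le_trans ?_ h
  norm_num

lemma log_s_ge {s : ℕ} (hs : 2 ≤ s) : 0.69 ≤ Real.log s := by
  have h1 := Real.log_two_gt_d9
  have h2 : Real.log 2 ≤ Real.log s :=
    Real.log_le_log (by norm_num) (by exact_mod_cast hs)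
  linarith

lemma clog_ge {s c : ℕ} {σ : ℝ} (hs : 2 ≤ s) (hc : c ∈ SparseSet s (kap σ)) :
    Real.exp σ ^ 10 / 2 ≤ Nat.clog s c := by
  have h1 := clog_large hs hc
  have hE : 0 < Real.exp σ ^ 10 := pow_pos (Real.exp_pos _) _
  rw [kap_eq] at h1
  have h2 : 2 * (1 / Real.exp σ ^ 10) * (Nat.clog s c : ℝ) =
      2 * Nat.clog s c / Real.exp σ ^ 10 := by ring
  rw [h2, le_div_iff₀ hE] at h1
  linarith

lemma log_ge {s c : ℕ} (hs : 2 ≤ s) (hc : 2 ≤ c) :
    ((Nat.clog s c : ℝ) - 1) * Real.log s ≤ Real.log c := by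
  obtain ⟨m, hm⟩ : ∃ m, Nat.clog s c = m + 1 := by
    have := Nat.clog_pos (b := s) (by omega) hc
    exact ⟨Nat.clog s c - 1, by omega⟩
  have h1 := Nat.pow_pred_clog_lt_self (b := s) (by omega) hc
  rw [hm, Nat.pred_succ] at h1
  rw [hm]
  push_cast
  rw [add_sub_cancel_right, ← Real.log_pow]
  refine Real.log_le_log (by positivity) ?_
  exact_mod_cast h1.le

/-- The elements are larger than `exp (exp σ)`. -/
theorem elem_gt {s c : ℕ} {σ : ℝ} (hs : 2 ≤ s) (hσ : 1 ≤ σ) (hc : c ∈ SparseSet s (kap σ)) :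
    Real.exp (Real.exp σ) < c := by
  have h1 := clog_ge hs hc
  have h2 := log_ge hs hc.1
  have h3 := log_s_ge hs
  have h4 := E8_large hσ
  have h5 := E_large hσ
  have hc0 : (0 : ℝ) < c := by
    have := hc.1
    exact_mod_cast (by omega : 0 < c)
  rw [← Real.lt_log_iff_exp_lt hc0]
  refine lt_of_lt_of_le ?_ h2
  have h6 : Real.exp σ ^ 10 = Real.exp σ ^ 8 * (Real.exp σ * Real.exp σ) := by ring
  have h7 : 1024 * (Real.exp σ * Real.exp σ) ≤ Real.exp σ ^ 10 := by
    rw [h6]; exact mul_le_mul_of_nonneg_right h4 (by positivity)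
  have h8 : 512 * Real.exp σ ≤ (Nat.clog s c : ℝ) := by nlinarith
  nlinarith

/-- The number of elements. -/
theorem elem_count {s : ℕ} {σ : ℝ} (hs : 2 ≤ s) (hσ : 1 ≤ σ) (X : ℕ) (F : Finset ℕ)
    (hF : ∀ c ∈ F, c ∈ SparseSet s (kap σ) ∧ c ≤ X) :
    (F.card : ℝ) ≤ (X : ℝ) ^ Real.exp (-σ) := by
  rcases F.eq_empty_or_nonempty with rfl | ⟨c, hcF⟩
  · rw [card_empty, Nat.cast_zero]; positivity
  obtain ⟨hc, hcX⟩ := hF c hcF
  have hX2 : 2 ≤ X := hc.1.trans hcX
  set E := Real.exp σ with hE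
  have hE1 : 2.7 ≤ E := E_large hσ
  have hE8 : 1024 ≤ E ^ 8 := E8_large hσ
  have hE0 : 0 < E := by linarith
  set ℓ := Real.log s with hℓ
  have hℓ1 : 0.69 ≤ ℓ := log_s_ge hs
  set M := Nat.clog s X with hM
  have hMr : E ^ 10 / 2 ≤ M := by
    refine (clog_ge hs hc).trans ?_
    exact_mod_cast Nat.clog_mono_right _ hcX
  have hME : 512 * E ^ 2 ≤ M := by
    have h6 : E ^ 10 = E ^ 8 * E ^ 2 := by ring
    have h7 : 1024 * E ^ 2 ≤ E ^ 10 := by
      rw [h6]; exact mul_le_mul_of_nonneg_right hE8 (by positivity)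
    linarith
  have hM0 : (0 : ℝ) < M := by nlinarith
  have hX := log_ge hs hX2
  rw [← hM, ← hℓ] at hX
  have hsr : (2 : ℝ) ≤ s := by exact_mod_cast hs
  have hs0 : (0 : ℝ) < s := by linarith
  set κ := kap σ with hκ
  have hκE : κ = 1 / E ^ 10 := kap_eq σ
  have hκ0 : 0 < κ := kap_pos σ
  have hκ1 : κ ≤ 1 := by
    rw [hκE, div_le_one (by positivity)]
    exact one_le_pow₀ (by linarith)
  have ht0 : 0 < κ / s := by positivity
  have ht1 : κ / s ≤ 1 := by
    rw [div_le_one hs0]; linarith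
  refine (sparse_card hs ht0 ht1 X F hF).trans ?_
  -- the base
  set β : ℝ := (κ / s) ^ (-κ) * (1 + κ / s * s) with hβ
  have hβ1 : β ≤ Real.exp (κ * (ℓ + 10 * σ + 1)) := by
    have h1 : (κ / s) ^ (-κ) = Real.exp (κ * (ℓ + 10 * σ)) := by
      rw [Real.rpow_def_of_pos ht0, Real.log_div hκ0.ne' hs0.ne']
      congr 1
      have : Real.log κ = -(10 * σ) := by rw [hκ]; unfold kap; rw [Real.log_exp]
      rw [this]; ring
    have h2 : 1 + κ / s * s ≤ Real.exp κ := by
      rw [div_mul_cancel₀ _ hs0.ne', add_comm]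
      exact Real.add_one_le_exp κ
    calc β ≤ Real.exp (κ * (ℓ + 10 * σ)) * Real.exp κ := by
          rw [hβ, h1]
          exact mul_le_mul_of_nonneg_left h2 (Real.exp_pos _).le
      _ = _ := by rw [← Real.exp_add]; congr 1; ring
  have hβ0 : 0 ≤ β := by rw [hβ]; positivity
  have hσE : σ ≤ E - 1 := by
    have := Real.add_one_le_exp σ
    linarith
  have hexp : κ * (ℓ + 10 * σ + 1) ≤ ℓ / (8 * E) := by
    have h1 : ℓ + 10 * σ + 1 ≤ 16 * E * ℓ := by nlinarith
    have h2 : κ * (ℓ + 10 * σ + 1) ≤ 1 / E ^ 10 * (16 * E * ℓ) := by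
      rw [hκE]; exact mul_le_mul_of_nonneg_left h1 (by positivity)
    refine h2.trans ?_
    rw [le_div_iff₀ (by positivity)]
    have h3 : 1 / E ^ 10 * (16 * E * ℓ) * (8 * E) = 128 * ℓ / E ^ 8 := by
      field_simp; ring
    rw [h3, div_le_iff₀ (by positivity)]
    nlinarith
  have hterm : ∀ m ∈ range (M + 1), (s : ℝ) * β ^ (2 * m) ≤ s * Real.exp (M * (ℓ / (4 * E))) := by
    intro m hm
    have hm' : m ≤ M := by rw [mem_range] at hm; omega
    have hm'' : (m : ℝ) ≤ M := by exact_mod_cast hm'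
    refine mul_le_mul_of_nonneg_left ?_ hs0.le
    calc β ^ (2 * m) ≤ Real.exp (ℓ / (8 * E)) ^ (2 * m) :=
          pow_le_pow_left₀ hβ0 (hβ1.trans (Real.exp_le_exp.2 hexp)) _
      _ = Real.exp (m * (ℓ / (4 * E))) := by
          rw [← Real.exp_nat_mul]
          congr 1
          push_cast
          field_simp
          ring
      _ ≤ _ := Real.exp_le_exp.2 (mul_le_mul_of_nonneg_right hm'' (by positivity))
  calc ∑ m ∈ range (M + 1), (s : ℝ) * β ^ (2 * m)
      ≤ ∑ m ∈ range (M + 1), (s : ℝ) * Real.exp (M * (ℓ / (4 * E))) := sum_le_sum hterm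
    _ = ((M : ℝ) + 1) * (s * Real.exp (M * (ℓ / (4 * E)))) := by
        rw [sum_const, card_range, nsmul_eq_mul]; push_cast; ring
    _ ≤ Real.exp (M * (ℓ / (4 * E))) * (Real.exp (M * (ℓ / (4 * E))) *
          Real.exp (M * (ℓ / (4 * E)))) := by
        have h1 : (M : ℝ) + 1 ≤ Real.exp (M * (ℓ / (4 * E))) := by
          have h2 : (M : ℝ) / (8 * E) ≤ M * (ℓ / (4 * E)) := by
            rw [div_eq_mul_inv, mul_comm (8 : ℝ) E]
            have : ℓ / (4 * E) = (2 * ℓ) * (E * 8)⁻¹ := by field_simp; ring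
            rw [this, ← mul_assoc]
            refine mul_le_mul_of_nonneg_right ?_ (by positivity)
            nlinarith
          refine le_trans ?_ (Real.exp_le_exp.2 h2)
          have h3 := Real.quadratic_le_exp_of_nonneg (x := (M : ℝ) / (8 * E)) (by positivity)
          refine le_trans ?_ h3
          have h4 : (M : ℝ) ≤ (M / (8 * E)) ^ 2 / 2 := by
            rw [div_pow, div_div, le_div_iff₀ (by positivity)]
            nlinarith
          have h5 : 0 ≤ (M : ℝ) / (8 * E) := by positivity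
          linarith
        have h2 : (s : ℝ) ≤ Real.exp (M * (ℓ / (4 * E))) := by
          rw [← Real.exp_log hs0, ← hℓ]
          apply Real.exp_le_exp.2
          have : ℓ = (4 * E) * (ℓ / (4 * E)) := by field_simp
          conv_lhs => rw [this]
          refine mul_le_mul_of_nonneg_right ?_ (by positivity)
          nlinarith
        refine mul_le_mul h1 ?_ (by positivity) (by positivity)
        exact mul_le_mul_of_nonneg_right h2 (by positivity)
    _ = Real.exp (3 * (M * (ℓ / (4 * E)))) := by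
        rw [← Real.exp_add, ← Real.exp_add]; congr 1; ring
    _ ≤ Real.exp (Real.log X * Real.exp (-σ)) := by
        apply Real.exp_le_exp.2
        have h1 : Real.exp (-σ) = 1 / E := by rw [Real.exp_neg, one_div]
        rw [h1]
        have h2 : ((M : ℝ) - 1) * ℓ * (1 / E) ≤ Real.log X * (1 / E) :=
          mul_le_mul_of_nonneg_right hX (by positivity)
        refine le_trans ?_ h2
        have h3 : 3 * (M * (ℓ / (4 * E))) = (3 / 4 * M) * ℓ * (1 / E) := by
          field_simp
        rw [h3]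
        refine mul_le_mul_of_nonneg_right ?_ (by positivity)
        refine mul_le_mul_of_nonneg_right ?_ (by linarith)
        nlinarith
    _ = (X : ℝ) ^ Real.exp (-σ) := by
        rw [Real.rpow_def_of_pos (by exact_mod_cast (by omega : 0 < X))]

end Pool.Agent.Lib.P1aceS
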