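import Mathlib
import Pool.Agent.Lib.P1aceS.Sparse

set_option autoImplicit false

/-!
# The exponential sums
-/

namespace Pool.Agent.Lib.P1aceS

open Finset

/-- The trigonometric polynomial of the digit set. -/
noncomputable def ph (D : Finset ℕ) (θ : ℝ) : ℂ :=
  ∑ d ∈ D, Complex.exp (2 * Real.pi * Complex.I * (d * θ))

lemma norm_exp_one (x : ℝ) : ‖Complex.exp (2 * Real.pi * Complex.I * x)‖ = 1 := by
  have h : 2 * Real.pi * Complex.I * x = ((2 * Real.pi * x : ℝ) : ℂ) * Complex.I := by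
    push_cast; ring
  rw [h, Complex.norm_exp_ofReal_mul_I]

lemma norm_ph_le (D : Finset ℕ) (θ : ℝ) : ‖ph D θ‖ ≤ D.card := by
  unfold ph
  refine (norm_sum_le _ _).trans ?_
  have h : ∀ d ∈ D, ‖Complex.exp (2 * Real.pi * Complex.I * (d * θ))‖ ≤ 1 := by
    intro d _
    have := norm_exp_one (d * θ)
    push_cast at this
    exact this.le
  refine (sum_le_sum h).trans ?_
  rw [sum_const, nsmul_eq_mul, mul_one]

lemma exists_nonint (D : Finset ℕ) (hg : D.gcd id = 1) {θ : ℝ} (h0 : 0 < θ) (h1 : θ < 1) :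
    ∃ d ∈ D, ∀ n : ℤ, (d : ℝ) * θ ≠ n := by
  by_contra hcon
  push Not at hcon
  let H : AddSubgroup ℤ :=
    { carrier := {n | ∃ m : ℤ, (n : ℝ) * θ = m}
      add_mem' := by
        rintro a b ⟨m, hm⟩ ⟨n, hn⟩
        exact ⟨m + n, by push_cast; rw [add_mul, hm, hn]⟩
      zero_mem' := ⟨0, by simp⟩
      neg_mem' := by
        rintro a ⟨m, hm⟩
        exact ⟨-m, by push_cast; rw [neg_mul, hm]⟩ }
  obtain ⟨g, hgH⟩ := Int.subgroup_cyclic H
  have hd : ∀ d ∈ D, (g.natAbs : ℕ) ∣ id d := by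
    intro d hd
    obtain ⟨n, hn⟩ := hcon d hd
    have h2 : (d : ℤ) ∈ H := ⟨n, by push_cast; exact hn⟩
    rw [hgH, ← AddSubgroup.zmultiples_eq_closure, Int.mem_zmultiples_iff] at h2
    exact Int.natAbs_dvd_natAbs.2 h2
  have h3 : g.natAbs ∣ 1 := by rw [← hg]; exact Finset.dvd_gcd hd
  have h4 : (1 : ℤ) ∈ H := by
    rw [hgH, ← AddSubgroup.zmultiples_eq_closure, Int.mem_zmultiples_iff]
    exact Int.natAbs_dvd_natAbs.1 (by simpa using h3)
  obtain ⟨m, hm⟩ := h4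
  rw [Int.cast_one, one_mul] at hm
  rw [hm] at h0 h1
  have h5 : (0 : ℤ) < m := by exact_mod_cast h0
  have h6 : m < (1 : ℤ) := by exact_mod_cast h1
  omega

lemma norm_one_add_lt {x : ℝ} (hx : ∀ n : ℤ, x ≠ n) :
    ‖1 + Complex.exp (2 * Real.pi * Complex.I * x)‖ < 2 := by
  have h : 2 * Real.pi * Complex.I * x = ((2 * Real.pi * x : ℝ) : ℂ) * Complex.I := by
    push_cast; ring
  rw [h]
  set φ : ℝ := 2 * Real.pi * x with hφ
  have hcos : Real.cos φ < 1 := by
    refine lt_of_le_of_ne (Real.cos_le_one _) fun hc => ?_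
    rw [Real.cos_eq_one_iff] at hc
    obtain ⟨n, hn⟩ := hc
    apply hx n
    have : (n : ℝ) * (2 * Real.pi) = x * (2 * Real.pi) := by rw [hn, hφ]; ring
    exact (mul_right_cancel₀ (by positivity) this).symm
  have hsq : ‖1 + Complex.exp ((φ : ℂ) * Complex.I)‖ ^ 2 = 2 + 2 * Real.cos φ := by
    rw [Complex.sq_norm, Complex.normSq_apply, Complex.add_re, Complex.add_im,
      Complex.exp_ofReal_mul_I_re, Complex.exp_ofReal_mul_I_im, Complex.one_re, Complex.one_im]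
    nlinarith [Real.sin_sq_add_cos_sq φ]
  have h4 : ‖1 + Complex.exp ((φ : ℂ) * Complex.I)‖ ^ 2 < 2 ^ 2 := by rw [hsq]; linarith
  exact lt_of_pow_lt_pow_left₀ 2 (by norm_num) h4

lemma norm_ph_lt (D : Finset ℕ) (h0D : 0 ∈ D) (hg : D.gcd id = 1) {θ : ℝ} (h0 : 0 < θ)
    (h1 : θ < 1) : ‖ph D θ‖ < D.card := by
  classical
  obtain ⟨d, hd, hdn⟩ := exists_nonint D hg h0 h1
  have hd0 : d ≠ 0 := by
    rintro rfl
    exact hdn 0 (by simp)
  have hd' : d ∈ D.erase 0 := mem_erase.2 ⟨hd0, hd⟩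
  have h2 : ph D θ = (1 + Complex.exp (2 * Real.pi * Complex.I * (d * θ))) +
      ph ((D.erase 0).erase d) θ := by
    unfold ph
    rw [← add_sum_erase D _ h0D, ← add_sum_erase (D.erase 0) _ hd']
    have : Complex.exp (2 * Real.pi * Complex.I * (((0 : ℕ) : ℂ) * θ)) = 1 := by simp
    rw [this]
    ring
  have h3 := norm_ph_le ((D.erase 0).erase d) θ
  have h4 : ‖1 + Complex.exp (2 * Real.pi * Complex.I * (d * θ))‖ < 2 := by
    have := norm_one_add_lt hdn
    push_cast at this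
    exact this
  have h5 : ((D.erase 0).erase d).card + 2 = D.card := by
    have e1 := card_erase_add_one hd'
    have e2 := card_erase_add_one h0D
    omega
  have h6 : (((D.erase 0).erase d).card : ℝ) + 2 = D.card := by exact_mod_cast h5
  rw [h2]
  calc ‖_ + _‖ ≤ _ := norm_add_le _ _
    _ < 2 + (((D.erase 0).erase d).card : ℝ) := add_lt_add_of_lt_of_le h4 h3
    _ = D.card := by linarith

/-- The uniform bound away from the integers. -/
theorem exists_rho (D : Finset ℕ) (h0D : 0 ∈ D) (hg : D.gcd id = 1) {s : ℕ} (hs : 2 ≤ s) :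
    ∃ ρ : ℝ, 0 < ρ ∧ ρ < 1 ∧ ∀ θ : ℝ, 1 / (s : ℝ) ^ 2 ≤ θ → θ ≤ 1 - 1 / (s : ℝ) ^ 2 →
      ‖ph D θ‖ ≤ ρ * D.card := by
  have hsr : (2 : ℝ) ≤ s := by exact_mod_cast hs
  have hc : Continuous fun θ : ℝ => ‖ph D θ‖ := by
    unfold ph
    fun_prop
  have hD : 0 < D.card := card_pos.2 ⟨0, h0D⟩
  have hDr : (0 : ℝ) < D.card := by exact_mod_cast hD
  have hne : (Set.Icc (1 / (s : ℝ) ^ 2) (1 - 1 / (s : ℝ) ^ 2)).Nonempty := by
    rw [Set.nonempty_Icc]
    have : 1 / (s : ℝ) ^ 2 ≤ 1 / 4 := by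
      apply one_div_le_one_div_of_le (by norm_num)
      nlinarith
    linarith
  obtain ⟨θ₀, hθ₀, hmax⟩ := isCompact_Icc.exists_isMaxOn hne hc.continuousOn
  have h1 : ‖ph D θ₀‖ < D.card := by
    have h2 : 0 < 1 / (s : ℝ) ^ 2 := by positivity
    exact norm_ph_lt D h0D hg (lt_of_lt_of_le h2 hθ₀.1) (by linarith [hθ₀.2])
  refine ⟨max (1 / 2) (‖ph D θ₀‖ / D.card), lt_max_of_lt_left (by norm_num),
    max_lt (by norm_num) ((div_lt_one hDr).2 h1), fun θ h2 h3 => ?_⟩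
  calc ‖ph D θ‖ ≤ ‖ph D θ₀‖ := hmax ⟨h2, h3⟩
    _ = ‖ph D θ₀‖ / D.card * D.card := by field_simp
    _ ≤ _ := mul_le_mul_of_nonneg_right (le_max_right _ _) hDr.le

section

variable {q : ℕ} [NeZero q]

/-- The sum over the digits in the place `s ^ i`. -/
noncomputable def tm (D : Finset ℕ) (s : ℕ) (a : ZMod q) (i : ℕ) : ℂ :=
  ∑ d ∈ D, ZMod.stdAddChar (a * (s : ZMod q) ^ i * (d : ZMod q))

lemma tm_eq (D : Finset ℕ) (s : ℕ) (a : ZMod q) (i : ℕ) :
    tm D s a i = ph D (((a.val * s ^ i % q : ℕ) : ℝ) / q) := by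
  unfold tm ph
  refine sum_congr rfl fun d _ => ?_
  have hr : ((a.val * s ^ i % q : ℕ) : ZMod q) = a * (s : ZMod q) ^ i := by
    rw [ZMod.natCast_mod, Nat.cast_mul, Nat.cast_pow, ZMod.natCast_zmod_val]
  generalize a.val * s ^ i % q = r at hr ⊢
  have h1 : a * (s : ZMod q) ^ i * (d : ZMod q) = (((r * d : ℕ) : ℤ) : ZMod q) := by
    rw [← hr]
    push_cast
    ring
  rw [h1, ZMod.stdAddChar_coe]
  congr 1
  push_cast
  ring

lemma norm_tm_le {s : ℕ} (hs : 2 ≤ s) (D : Finset ℕ) {ρ : ℝ}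
    (hρ : ∀ θ : ℝ, 1 / (s : ℝ) ^ 2 ≤ θ → θ ≤ 1 - 1 / (s : ℝ) ^ 2 → ‖ph D θ‖ ≤ ρ * D.card)
    (a : ZMod q) (i : ℕ) :
    ‖tm D s a i‖ ≤ D.card *
      ρ ^ (if Quiet s (fdg s a.val q i) (fdg s a.val q (i + 1)) then 0 else 1) := by
  have hq0 : 0 < q := NeZero.pos q
  have hqr : (0 : ℝ) < q := by exact_mod_cast hq0
  have hsr : (2 : ℝ) ≤ s := by exact_mod_cast hs
  rw [tm_eq]
  by_cases hQ : Quiet s (fdg s a.val q i) (fdg s a.val q (i + 1))
  · rw [if_pos hQ, pow_zero, mul_one]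
    exact norm_ph_le _ _
  · rw [if_neg hQ, pow_one, mul_comm (D.card : ℝ) ρ]
    obtain ⟨h1, h2⟩ := away hs hq0 i hQ
    set r := a.val * s ^ i % q with hr
    have h1' : (q : ℝ) ≤ (s : ℝ) ^ 2 * r := by exact_mod_cast h1
    have h2' : (s : ℝ) ^ 2 * r ≤ ((s : ℝ) ^ 2 - 1) * q := by
      have h3 : ((s ^ 2 - 1 : ℕ) : ℝ) = (s : ℝ) ^ 2 - 1 := by
        rw [Nat.cast_sub (Nat.one_le_pow _ _ (by omega))]
        push_cast; ring
      rw [← h3]
      exact_mod_cast h2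
    have hs2 : (0 : ℝ) < (s : ℝ) ^ 2 := by positivity
    refine hρ _ ?_ ?_
    · rw [div_le_div_iff₀ hs2 hqr]
      linarith
    · rw [div_le_iff₀ hqr]
      have h4 : (s : ℝ) ^ 2 * r ≤ (s : ℝ) ^ 2 * ((1 - 1 / (s : ℝ) ^ 2) * q) := by
        have : (s : ℝ) ^ 2 * ((1 - 1 / (s : ℝ) ^ 2) * q) = ((s : ℝ) ^ 2 - 1) * q := by
          field_simp
        rw [this]; exact h2'
      exact le_of_mul_le_mul_left h4 hs2

lemma norm_prod_le {s : ℕ} (hs : 2 ≤ s) (D : Finset ℕ) {ρ : ℝ}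
    (hρ : ∀ θ : ℝ, 1 / (s : ℝ) ^ 2 ≤ θ → θ ≤ 1 - 1 / (s : ℝ) ^ 2 → ‖ph D θ‖ ≤ ρ * D.card)
    (a : ZMod q) (L : ℕ) :
    ‖∏ i : Fin L, tm D s a i‖ ≤ (D.card : ℝ) ^ L * ρ ^ fq s a.val q L := by
  have h1 : ∏ i : Fin L, tm D s a i = ∏ i ∈ range L, tm D s a i := by
    rw [Finset.prod_range]
  rw [h1, norm_prod]
  calc ∏ i ∈ range L, ‖tm D s a i‖
      ≤ ∏ i ∈ range L, ((D.card : ℝ) *
        ρ ^ (if Quiet s (fdg s a.val q i) (fdg s a.val q (i + 1)) then 0 else 1)) :=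
        prod_le_prod (fun _ _ => norm_nonneg _) fun i _ => norm_tm_le hs D hρ a i
    _ = _ := by
        rw [prod_mul_distrib, prod_const, card_range, prod_pow_eq_pow_sum]
        rfl

/-- The sum over a complete residue system mod `b` vanishes at the frequencies killed by `b`. -/
lemma residue_sum {b : ℕ} [NeZero b] (g : ZMod b → ℕ)
    (hg : ∀ z, ((g z : ℕ) : ZMod b) = z) {a : ZMod q} (ha : a ≠ 0) (hba : (b : ZMod q) * a = 0) :
    ∑ z : ZMod b, ZMod.stdAddChar (a * (g z : ZMod q)) = (0 : ℂ) := by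
  set G : ℂ := ∑ z : ZMod b, ZMod.stdAddChar (a * (g z : ZMod q)) with hG
  have h1 : G * ZMod.stdAddChar a = G := by
    have h2 : ∀ z : ZMod b, (ZMod.stdAddChar (a * (g z : ZMod q)) : ℂ) * ZMod.stdAddChar a =
        ZMod.stdAddChar (a * (g (z + 1) : ZMod q)) := by
      intro z
      rw [← AddChar.map_add_eq_mul]
      congr 1
      have h3 : ((g z + 1 : ℕ) : ZMod b) = ((g (z + 1) : ℕ) : ZMod b) := by
        rw [Nat.cast_add, hg, hg, Nat.cast_one]
      rw [ZMod.natCast_eq_natCast_iff] at h3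
      obtain ⟨k, hk⟩ := h3.symm.dvd
      have h4 : ((g z : ZMod q) + 1) - (g (z + 1) : ZMod q) = (b : ZMod q) * (k : ZMod q) := by
        have := congrArg (Int.cast : ℤ → ZMod q) hk
        push_cast at this
        exact this
      have h5 : a * ((g z : ZMod q) + 1) - a * (g (z + 1) : ZMod q) = 0 := by
        rw [← mul_sub, h4]
        calc a * ((b : ZMod q) * k) = ((b : ZMod q) * a) * k := by ring
          _ = 0 := by rw [hba, zero_mul]
      have h6 := sub_eq_zero.1 h5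
      rw [← h6]; ring
    calc G * ZMod.stdAddChar a = ∑ z : ZMod b, ZMod.stdAddChar (a * (g (z + 1) : ZMod q)) := by
          rw [hG, sum_mul]; exact sum_congr rfl fun z _ => h2 z
      _ = G := by
          rw [hG]
          exact Fintype.sum_equiv (Equiv.addRight (1 : ZMod b)) _ _ fun z => rfl
  have h2 : (ZMod.stdAddChar a : ℂ) ≠ 1 := by
    intro h
    apply ha
    have h3 : (ZMod.stdAddChar a : ℂ) = ZMod.stdAddChar (0 : ZMod q) := by
      rw [h, AddChar.map_zero_eq_one]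
    exact ZMod.injective_stdAddChar h3
  have h3 : G * (ZMod.stdAddChar a - 1) = 0 := by rw [mul_sub, h1]; ring
  exact (mul_eq_zero.1 h3).resolve_right (sub_ne_zero.2 h2)

lemma addChar_sum (L : ℕ) (f : Fin L → ZMod q) :
    (∏ i : Fin L, (ZMod.stdAddChar (f i) : ℂ)) = ZMod.stdAddChar (∑ i : Fin L, f i) := by
  classical
  have : ∀ S : Finset (Fin L), (∏ i ∈ S, (ZMod.stdAddChar (f i) : ℂ)) =
      ZMod.stdAddChar (∑ i ∈ S, f i) := by
    intro S
    induction S using Finset.induction_on with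
    | empty => rw [prod_empty, sum_empty, AddChar.map_zero_eq_one]
    | insert a S ha ih => rw [prod_insert ha, sum_insert ha, ih, AddChar.map_add_eq_mul]
  exact this univ

/-- Invariance of the set of frequencies. -/
lemma shift_sum {b : ℕ} {u : ZMod q} (hu : IsUnit u) (f : ZMod q → ℝ) :
    ∑ a ∈ univ.filter (fun a : ZMod q => (b : ZMod q) * a ≠ 0), f (a * u) =
      ∑ a ∈ univ.filter (fun a : ZMod q => (b : ZMod q) * a ≠ 0), f a := by
  obtain ⟨v, rfl⟩ := hu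
  refine Finset.sum_equiv (Units.mulRight v) (fun a => ?_) fun a _ => rfl
  rw [mem_filter, mem_filter]
  simp only [mem_univ, true_and, Units.mulRight_apply]
  rw [← mul_assoc, Ne, Ne, Units.mul_left_eq_zero]

/-- Existence of a representation. -/
theorem exists_rep {b : ℕ} [NeZero b] {s m L : ℕ} (D : Finset ℕ)
    (g : ZMod b → ℕ) (hg : ∀ z, ((g z : ℕ) : ZMod b) = z)
    (hsu : IsUnit (s : ZMod q))
    (hP : ∑ a ∈ univ.filter (fun a : ZMod q => (b : ZMod q) * a ≠ 0),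
      ‖∏ i : Fin L, tm D s a i‖ < (D.card : ℝ) ^ L) (lam : ZMod q) :
    ∃ (z : ZMod b) (δ : Fin L → ℕ), (∀ i, δ i ∈ D) ∧
      (g z : ZMod q) + (s : ZMod q) ^ m * ∑ i : Fin L, (δ i : ZMod q) * (s : ZMod q) ^ (i : ℕ) =
        lam := by
  classical
  by_contra hcon
  push Not at hcon
  set P := Fintype.piFinset fun _ : Fin L => D with hPi
  let y : ZMod b → (Fin L → ℕ) → ZMod q := fun z δ =>
    (g z : ZMod q) + (s : ZMod q) ^ m * ∑ i : Fin L, (δ i : ZMod q) * (s : ZMod q) ^ (i : ℕ) - lam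
  have hy : ∀ z, ∀ δ ∈ P, y z δ ≠ 0 := by
    intro z δ hδ h
    exact hcon z δ (fun i => (Fintype.mem_piFinset.1 hδ) i) (sub_eq_zero.1 h)
  let F : ZMod q → ℂ := fun a => ∑ z : ZMod b, ∑ δ ∈ P, ZMod.stdAddChar (a * y z δ)
  have hsum : ∑ a, F a = 0 := by
    simp only [F]
    rw [sum_comm]
    refine sum_eq_zero fun z _ => ?_
    rw [sum_comm]
    refine sum_eq_zero fun δ hδ => ?_
    rw [AddChar.sum_mulShift _ (ZMod.isPrimitive_stdAddChar q), if_neg (hy z δ hδ)]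
    simp
  have hF : ∀ a, F a = ZMod.stdAddChar (-(a * lam)) *
      (∑ z : ZMod b, ZMod.stdAddChar (a * (g z : ZMod q))) *
        ∏ i : Fin L, tm D s (a * (s : ZMod q) ^ m) i := by
    intro a
    have h1 : ∏ i : Fin L, tm D s (a * (s : ZMod q) ^ m) i =
        ∑ δ ∈ P, ∏ i : Fin L,
          (ZMod.stdAddChar (a * (s : ZMod q) ^ m * (s : ZMod q) ^ (i : ℕ) * (δ i : ZMod q)) : ℂ) := by
      unfold tm
      rw [prod_univ_sum]
    rw [h1, mul_assoc, sum_mul_sum, mul_sum]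
    simp only [F]
    refine sum_congr rfl fun z _ => ?_
    rw [mul_sum]
    refine sum_congr rfl fun δ _ => ?_
    rw [addChar_sum, ← AddChar.map_add_eq_mul, ← AddChar.map_add_eq_mul]
    congr 1
    simp only [y]
    rw [mul_sub, mul_add, mul_sum, mul_sum]
    have h2 : ∀ i : Fin L, a * ((s : ZMod q) ^ m * ((δ i : ZMod q) * (s : ZMod q) ^ (i : ℕ))) =
        a * (s : ZMod q) ^ m * (s : ZMod q) ^ (i : ℕ) * (δ i : ZMod q) := fun i => by ring
    simp only [h2]
    ring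
  have hb0 : 0 < b := NeZero.pos b
  have hbr : (0 : ℝ) < b := by exact_mod_cast hb0
  have hF0 : F 0 = (b : ℂ) * (D.card : ℂ) ^ L := by
    simp only [F, zero_mul, AddChar.map_zero_eq_one, sum_const, card_univ, ZMod.card,
      nsmul_eq_mul, mul_one]
    rw [hPi, Fintype.card_piFinset]
    simp
  have hsplit : F 0 = - ∑ a ∈ univ.erase (0 : ZMod q), F a := by
    have := add_sum_erase univ F (mem_univ (0 : ZMod q))
    rw [hsum] at this
    exact eq_neg_of_add_eq_zero_left this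
  have hsub : ∑ a ∈ univ.erase (0 : ZMod q), ‖F a‖ =
      ∑ a ∈ univ.filter (fun a : ZMod q => (b : ZMod q) * a ≠ 0), ‖F a‖ := by
    symm
    refine sum_subset (fun a ha => ?_) fun a ha hna => ?_
    · rw [mem_filter] at ha
      rw [mem_erase]
      refine ⟨?_, mem_univ _⟩
      rintro rfl
      exact ha.2 (mul_zero _)
    · rw [mem_filter, not_and, not_not] at hna
      rw [hF, residue_sum g hg (ne_of_mem_erase ha) (hna (mem_univ _)), mul_zero, zero_mul,
        norm_zero]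
  have hle : ∀ a : ZMod q, ‖F a‖ ≤ b * ‖∏ i : Fin L, tm D s (a * (s : ZMod q) ^ m) i‖ := by
    intro a
    rw [hF, norm_mul, norm_mul]
    have h1 : ‖(ZMod.stdAddChar (-(a * lam)) : ℂ)‖ = 1 := AddChar.norm_apply _ _
    have h2 : ‖∑ z : ZMod b, (ZMod.stdAddChar (a * (g z : ZMod q)) : ℂ)‖ ≤ b := by
      refine (norm_sum_le _ _).trans ?_
      have : ∀ z : ZMod b, ‖(ZMod.stdAddChar (a * (g z : ZMod q)) : ℂ)‖ = 1 :=
        fun z => AddChar.norm_apply _ _
      simp only [this, sum_const, card_univ, ZMod.card, nsmul_eq_mul, mul_one]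
      exact le_refl _
    rw [h1, one_mul]
    exact mul_le_mul_of_nonneg_right h2 (norm_nonneg _)
  have h1 : ‖F 0‖ = (b : ℝ) * (D.card : ℝ) ^ L := by
    rw [hF0, norm_mul, norm_pow, Complex.norm_natCast, Complex.norm_natCast]
  have h2 : ‖F 0‖ < (b : ℝ) * (D.card : ℝ) ^ L := by
    rw [hsplit, norm_neg]
    calc ‖∑ a ∈ univ.erase (0 : ZMod q), F a‖ ≤ ∑ a ∈ univ.erase (0 : ZMod q), ‖F a‖ :=
          norm_sum_le _ _
      _ = ∑ a ∈ univ.filter (fun a : ZMod q => (b : ZMod q) * a ≠ 0), ‖F a‖ := hsub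
      _ ≤ ∑ a ∈ univ.filter (fun a : ZMod q => (b : ZMod q) * a ≠ 0),
            b * ‖∏ i : Fin L, tm D s (a * (s : ZMod q) ^ m) i‖ := sum_le_sum fun a _ => hle a
      _ = b * ∑ a ∈ univ.filter (fun a : ZMod q => (b : ZMod q) * a ≠ 0),
            ‖∏ i : Fin L, tm D s a i‖ := by
          rw [← mul_sum]
          congr 1
          exact shift_sum (hsu.pow m) fun a => ‖∏ i : Fin L, tm D s a i‖
      _ < _ := mul_lt_mul_of_pos_left hP hbr
  linarith

/-! ### Windows -/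

lemma val_mul_pow (s : ℕ) (a : ZMod q) (K : ℕ) :
    (a * (s : ZMod q) ^ K).val = a.val * s ^ K % q := by
  have : a * (s : ZMod q) ^ K = ((a.val * s ^ K : ℕ) : ZMod q) := by
    rw [Nat.cast_mul, Nat.cast_pow, ZMod.natCast_zmod_val]
  rw [this, ZMod.val_natCast]

lemma fq_windows (s : ℕ) (w : ℕ) : ∀ (J : ℕ) (a : ZMod q),
    fq s a.val q (J * w) = ∑ k ∈ range J, fq s (a * (s : ZMod q) ^ (k * w)).val q w := by
  have hq0 : 0 < q := NeZero.pos q
  intro J
  induction J with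
  | zero =>
    intro a
    rw [Nat.zero_mul, sum_range_zero]
    unfold fq
    rw [sum_range_zero]
  | succ J ih =>
    intro a
    have e : (J + 1) * w = J * w + w := by ring
    rw [e, fq_add hq0, ih, sum_range_succ, val_mul_pow s a (J * w)]

lemma pow_windows (s : ℕ) {ρ : ℝ} (hρ0 : 0 ≤ ρ) (hρ1 : ρ ≤ 1) (w : ℕ) {J : ℕ} (hJ : 0 < J)
    (a : ZMod q) : ρ ^ fq s a.val q (J * w) ≤
      ∑ k ∈ range J, (ρ ^ J) ^ fq s (a * (s : ZMod q) ^ (k * w)).val q w := by
  obtain ⟨k0, hk0, hmin⟩ := exists_min_image (range J)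
    (fun k => fq s (a * (s : ZMod q) ^ (k * w)).val q w) ⟨0, mem_range.2 hJ⟩
  have h1 : J * fq s (a * (s : ZMod q) ^ (k0 * w)).val q w ≤ fq s a.val q (J * w) := by
    rw [fq_windows]
    calc J * fq s (a * (s : ZMod q) ^ (k0 * w)).val q w =
          ∑ k ∈ range J, fq s (a * (s : ZMod q) ^ (k0 * w)).val q w := by
          rw [sum_const, card_range, smul_eq_mul]
      _ ≤ _ := sum_le_sum fun k hk => hmin k hk
  calc ρ ^ fq s a.val q (J * w) ≤ ρ ^ (J * fq s (a * (s : ZMod q) ^ (k0 * w)).val q w) :=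
        pow_le_pow_of_le_one hρ0 hρ1 h1
    _ = (ρ ^ J) ^ fq s (a * (s : ZMod q) ^ (k0 * w)).val q w := by rw [pow_mul]
    _ ≤ _ := single_le_sum
        (f := fun k => (ρ ^ J) ^ fq s (a * (s : ZMod q) ^ (k * w)).val q w)
        (fun k _ => pow_nonneg (pow_nonneg hρ0 _) _) hk0

/-- The frequencies with few changes are few. -/
lemma sum_freq {s : ℕ} (hs : 0 < s) {t : ℝ} (ht : 0 ≤ t) {w : ℕ} (hw : q ≤ s ^ (w + 1)) :
    ∑ a : ZMod q, t ^ fq s a.val q w ≤ s * (1 + t * s) ^ w := by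
  classical
  have hq0 : 0 < q := NeZero.pos q
  refine le_trans ?_ (transfer hs ht w)
  have hinj : Set.InjOn (fun a : ZMod q => a.val * s ^ (w + 1) / q) (univ : Finset (ZMod q)) := by
    have key : ∀ x y : ℕ, x < y → x * s ^ (w + 1) / q < y * s ^ (w + 1) / q := by
      intro x y hxy
      rw [Nat.lt_iff_add_one_le, Nat.le_div_iff_mul_le hq0]
      have h1 : x * s ^ (w + 1) / q * q ≤ x * s ^ (w + 1) := Nat.div_mul_le_self _ _
      calc (x * s ^ (w + 1) / q + 1) * q = x * s ^ (w + 1) / q * q + q := by ring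
        _ ≤ x * s ^ (w + 1) + s ^ (w + 1) := Nat.add_le_add h1 hw
        _ = (x + 1) * s ^ (w + 1) := by ring
        _ ≤ y * s ^ (w + 1) := Nat.mul_le_mul_right _ hxy
    intro a _ a' _ h
    simp only at h
    apply ZMod.val_injective q
    rcases lt_trichotomy a.val a'.val with h' | h' | h'
    · exact absurd h (key _ _ h').ne
    · exact h'
    · exact absurd h (key _ _ h').ne'
  calc ∑ a : ZMod q, t ^ fq s a.val q w
      = ∑ M ∈ univ.image (fun a : ZMod q => a.val * s ^ (w + 1) / q), t ^ nq s M w := by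
        rw [sum_image hinj]
        exact sum_congr rfl fun a _ => by rw [nq_frac hs]
    _ ≤ _ := by
        refine sum_le_sum_of_subset_of_nonneg (fun M hM => ?_) fun M _ _ => pow_nonneg ht _
        obtain ⟨a, _, rfl⟩ := mem_image.1 hM
        rw [mem_range, Nat.div_lt_iff_lt_mul hq0, mul_comm]
        exact Nat.mul_lt_mul_of_pos_left (ZMod.val_lt a) (pow_pos hs _)

/-- The sum over the frequencies. -/
theorem freq_sum_lt {s b : ℕ} (hs : 2 ≤ s) (hq : 2 ≤ q) (hcop : Nat.Coprime s q)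
    {κ : ℝ} (hκ0 : 0 < κ)
    (hB : ∀ c ∈ SparseSet s κ, c ∣ q → c ∣ b) (D : Finset ℕ) (hD : 0 < D.card) {ρ : ℝ}
    (hρ0 : 0 < ρ) (hρ1 : ρ < 1)
    (hρ : ∀ θ : ℝ, 1 / (s : ℝ) ^ 2 ≤ θ → θ ≤ 1 - 1 / (s : ℝ) ^ 2 → ‖ph D θ‖ ≤ ρ * D.card)
    {J : ℕ} (hJ : 0 < J) (hJρ : J * (s : ℝ) ^ 2 * Real.exp 2 * ρ ^ J < κ) :
    ∑ a ∈ univ.filter (fun a : ZMod q => (b : ZMod q) * a ≠ 0),
      ‖∏ i : Fin (J * (2 * wl s q)), tm D s a i‖ < (D.card : ℝ) ^ (J * (2 * wl s q)) := by
  classical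
  set w := 2 * wl s q with hw
  set S := univ.filter (fun a : ZMod q => (b : ZMod q) * a ≠ 0) with hS
  have hsr : (2 : ℝ) ≤ s := by exact_mod_cast hs
  have hs0 : (0 : ℝ) < s := by linarith
  have hsu : IsUnit (s : ZMod q) := (ZMod.isUnit_iff_coprime s q).2 hcop
  have hJr : (1 : ℝ) ≤ J := by exact_mod_cast hJ
  set T := ρ ^ J with hT
  have hT0 : 0 < T := pow_pos hρ0 _
  have hDr : (0 : ℝ) < (D.card : ℝ) ^ (J * w) := by
    have : (0 : ℝ) < D.card := by exact_mod_cast hD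
    positivity
  -- changes
  have hch : ∀ a ∈ S, κ * w / 2 ≤ fq s a.val q w := by
    intro a ha
    rw [hS, mem_filter] at ha
    refine many_changes hs hκ0.le (by omega) hcop hB a.val ?_ (le_refl _)
    intro h
    apply ha.2
    have h2 := (ZMod.natCast_eq_zero_iff (b * a.val) q).2 h
    rw [Nat.cast_mul, ZMod.natCast_zmod_val] at h2
    exact h2
  have hn1 : 1 ≤ Nat.clog s q := Nat.clog_pos (by omega) hq
  have hw0 : 0 < w := by rw [hw]; unfold wl; omega
  have hwr : (0 : ℝ) < w := by exact_mod_cast hw0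
  set f0 := ⌈κ * w / 2⌉₊ with hf0
  have hf0' : 1 ≤ f0 := Nat.one_le_iff_ne_zero.2 (by
    rw [hf0]
    exact (Nat.ceil_pos.2 (by positivity)).ne')
  have hch' : ∀ a ∈ S, f0 ≤ fq s a.val q w := fun a ha => Nat.ceil_le.2 (hch a ha)
  have hf0r : κ * w ≤ 2 * f0 := by
    have := Nat.le_ceil (κ * w / 2)
    rw [← hf0] at this
    linarith
  set t : ℝ := κ / s with ht
  have ht0 : 0 < t := by positivity
  have hTt : Real.exp 2 * T / t * (J * s) < 1 := by
    have : Real.exp 2 * T / t * (J * s) = J * (s : ℝ) ^ 2 * Real.exp 2 * T / κ := by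
      rw [ht]; field_simp
    rw [this, div_lt_one hκ0]
    exact hJρ
  have hJs : (1 : ℝ) ≤ J * s := by nlinarith
  have hx0 : 0 < Real.exp 2 * T / t := by positivity
  have hx1 : Real.exp 2 * T / t ≤ 1 := by
    by_contra hcon
    push Not at hcon
    nlinarith
  have hTt1 : T / t ≤ 1 := by
    have h1 : (1 : ℝ) ≤ Real.exp 2 := Real.one_le_exp (by norm_num)
    have h2 : T / t ≤ Real.exp 2 * (T / t) := le_mul_of_one_le_left (by positivity) h1
    rw [mul_div_assoc] at hx1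
    linarith
  -- the sum with one window
  have hone : ∑ a ∈ S, T ^ fq s a.val q w ≤ s * (Real.exp 2 * T / t) := by
    have h1 : ∀ a ∈ S, T ^ fq s a.val q w ≤ (T / t) ^ f0 * t ^ fq s a.val q w := by
      intro a ha
      have e : T ^ fq s a.val q w = (T / t) ^ fq s a.val q w * t ^ fq s a.val q w := by
        rw [← mul_pow, div_mul_cancel₀ _ ht0.ne']
      rw [e]
      exact mul_le_mul_of_nonneg_right
        (pow_le_pow_of_le_one (by positivity) hTt1 (hch' a ha)) (by positivity)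
    have hqw : q ≤ s ^ (w + 1) := by
      refine (Nat.le_pow_clog (by omega) q).trans (Nat.pow_le_pow_right (by omega) ?_)
      rw [hw]; unfold wl; omega
    have h2 : (1 + t * s) ^ w ≤ Real.exp 2 ^ f0 := by
      have e1 : 1 + t * s ≤ Real.exp κ := by
        have : t * s = κ := by rw [ht]; field_simp
        rw [this, add_comm]
        exact Real.add_one_le_exp κ
      calc (1 + t * s) ^ w ≤ Real.exp κ ^ w := pow_le_pow_left₀ (by positivity) e1 w
        _ = Real.exp (w * κ) := by rw [← Real.exp_nat_mul]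
        _ ≤ Real.exp (f0 * 2) := Real.exp_le_exp.2 (by linarith)
        _ = Real.exp 2 ^ f0 := by rw [← Real.exp_nat_mul]
    calc ∑ a ∈ S, T ^ fq s a.val q w ≤ ∑ a ∈ S, (T / t) ^ f0 * t ^ fq s a.val q w :=
          sum_le_sum h1
      _ = (T / t) ^ f0 * ∑ a ∈ S, t ^ fq s a.val q w := by rw [mul_sum]
      _ ≤ (T / t) ^ f0 * ∑ a : ZMod q, t ^ fq s a.val q w := by
          refine mul_le_mul_of_nonneg_left ?_ (by positivity)
          exact sum_le_sum_of_subset_of_nonneg (filter_subset _ _) fun a _ _ => by positivity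
      _ ≤ (T / t) ^ f0 * (s * (1 + t * s) ^ w) :=
          mul_le_mul_of_nonneg_left (sum_freq (by omega) ht0.le hqw) (by positivity)
      _ ≤ (T / t) ^ f0 * (s * Real.exp 2 ^ f0) := by
          refine mul_le_mul_of_nonneg_left ?_ (by positivity)
          exact mul_le_mul_of_nonneg_left h2 hs0.le
      _ = s * (Real.exp 2 * T / t) ^ f0 := by
          rw [mul_div_assoc, mul_pow]; ring
      _ ≤ s * (Real.exp 2 * T / t) ^ 1 := by
          refine mul_le_mul_of_nonneg_left ?_ hs0.le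
          exact pow_le_pow_of_le_one hx0.le hx1 hf0'
      _ = _ := by rw [pow_one]
  -- all windows
  have hall : ∑ a ∈ S, ρ ^ fq s a.val q (J * w) < 1 := by
    calc ∑ a ∈ S, ρ ^ fq s a.val q (J * w)
        ≤ ∑ a ∈ S, ∑ k ∈ range J, T ^ fq s (a * (s : ZMod q) ^ (k * w)).val q w :=
          sum_le_sum fun a _ => pow_windows s hρ0.le hρ1.le w hJ a
      _ = ∑ k ∈ range J, ∑ a ∈ S, T ^ fq s (a * (s : ZMod q) ^ (k * w)).val q w := sum_comm
      _ = ∑ k ∈ range J, ∑ a ∈ S, T ^ fq s a.val q w := by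
          refine sum_congr rfl fun k _ => ?_
          exact shift_sum (hsu.pow (k * w)) fun a => T ^ fq s a.val q w
      _ = J * ∑ a ∈ S, T ^ fq s a.val q w := by
          rw [sum_const, card_range, nsmul_eq_mul]
      _ ≤ J * (s * (Real.exp 2 * T / t)) := mul_le_mul_of_nonneg_left hone (by linarith)
      _ = Real.exp 2 * T / t * (J * s) := by ring
      _ < 1 := hTt
  calc ∑ a ∈ S, ‖∏ i : Fin (J * w), tm D s a i‖
      ≤ ∑ a ∈ S, (D.card : ℝ) ^ (J * w) * ρ ^ fq s a.val q (J * w) :=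
        sum_le_sum fun a _ => norm_prod_le hs D hρ a (J * w)
    _ = (D.card : ℝ) ^ (J * w) * ∑ a ∈ S, ρ ^ fq s a.val q (J * w) := by rw [mul_sum]
    _ < (D.card : ℝ) ^ (J * w) * 1 := mul_lt_mul_of_pos_left hall hDr
    _ = _ := mul_one _

end

end Pool.Agent.Lib.P1aceS
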