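import Mathlib
import Pool.Agent.Lib.P1aceS.Fourier
import Pool.Agent.Lib.P1aceS.Count

set_option autoImplicit false

/-!
# From a divisor `b` to the modulus `q`
-/

namespace Pool.Agent.Lib.P1aceS

open Finset

lemma allIn_digit {s : ℕ} {D : Finset ℕ} (h0D : 0 ∈ D) (hD : ∀ d ∈ D, d < s) {d : ℕ}
    (hd : d ∈ D) (i : ℕ) : d / s ^ i % s ∈ D := by
  have hds := hD d hd
  rcases Nat.eq_zero_or_pos i with rfl | hi
  · rw [pow_zero, Nat.div_one, Nat.mod_eq_of_lt hds]; exact hd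
  · have : d < s ^ i := lt_of_lt_of_le hds (Nat.le_self_pow (by omega) s)
    rw [Nat.div_eq_of_lt this, Nat.zero_mod]; exact h0D

lemma allIn_add {s : ℕ} {D : Finset ℕ} (hs : 0 < s) {m u v : ℕ} (hu : u < s ^ m)
    (hu' : ∀ i, u / s ^ i % s ∈ D) (hv' : ∀ i, v / s ^ i % s ∈ D) (i : ℕ) :
    (u + s ^ m * v) / s ^ i % s ∈ D := by
  have hsi : 0 < s ^ i := pow_pos hs i
  rcases lt_or_ge i m with hi | hi
  · obtain ⟨k, rfl⟩ : ∃ k, m = i + (k + 1) := ⟨m - i - 1, by omega⟩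
    have h1 : s ^ (i + (k + 1)) * v = s ^ i * (s * (s ^ k * v)) := by
      rw [pow_add, pow_succ]; ring
    rw [h1, Nat.add_mul_div_left _ _ hsi, Nat.add_mul_mod_self_left]
    exact hu' i
  · obtain ⟨k, rfl⟩ : ∃ k, i = m + k := ⟨i - m, by omega⟩
    rw [pow_add, ← Nat.div_div_eq_div_mul, Nat.add_mul_div_left _ _ (pow_pos hs m),
      Nat.div_eq_of_lt hu, zero_add]
    exact hv' k

lemma allIn_sum {s : ℕ} {D : Finset ℕ} (hs : 0 < s) (h0D : 0 ∈ D) (hD : ∀ d ∈ D, d < s) :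
    ∀ (L : ℕ) (δ : Fin L → ℕ), (∀ i, δ i ∈ D) →
      (∑ i : Fin L, δ i * s ^ (i : ℕ) < s ^ L) ∧
        ∀ j, (∑ i : Fin L, δ i * s ^ (i : ℕ)) / s ^ j % s ∈ D := by
  intro L
  induction L with
  | zero =>
    intro δ _
    refine ⟨by simp, fun j => ?_⟩
    simp only [univ_eq_empty, sum_empty, Nat.zero_div, Nat.zero_mod]
    exact h0D
  | succ L ih =>
    intro δ hδ
    obtain ⟨h1, h2⟩ := ih (fun i => δ i.castSucc) fun i => hδ _
    rw [Fin.sum_univ_castSucc]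
    simp only [Fin.val_castSucc, Fin.val_last]
    have h3 := hD _ (hδ (Fin.last L))
    rw [mul_comm (δ (Fin.last L))]
    refine ⟨?_, allIn_add hs h1 h2 (allIn_digit h0D hD (hδ _))⟩
    calc (∑ i : Fin L, δ i.castSucc * s ^ (i : ℕ)) + s ^ L * δ (Fin.last L)
        < s ^ L + s ^ L * δ (Fin.last L) := by omega
      _ = s ^ L * (δ (Fin.last L) + 1) := by ring
      _ ≤ s ^ L * s := Nat.mul_le_mul_left _ h3
      _ = s ^ (L + 1) := (pow_succ _ _).symm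

/-- The choice of the number of windows. -/
lemma exists_windows {s : ℕ} (hs : 2 ≤ s) {ρ : ℝ} (hρ0 : 0 < ρ) (hρ1 : ρ < 1) :
    ∃ R : ℝ, 0 < R ∧ ∀ σ : ℝ, 1 ≤ σ → ∃ J : ℕ, 0 < J ∧ (J : ℝ) ≤ R * σ ∧
      J * (s : ℝ) ^ 2 * Real.exp 2 * ρ ^ J < kap σ := by
  have hsr : (2 : ℝ) ≤ s := by exact_mod_cast hs
  have hs0 : (0 : ℝ) < s := by linarith
  have hlρ : Real.log ρ < 0 := Real.log_neg hρ0 hρ1
  set δ : ℝ := -Real.log ρ / 2 with hδ
  have hδ0 : 0 < δ := by rw [hδ]; linarith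
  have hls : 0 ≤ Real.log s := Real.log_nonneg (by linarith)
  set Q : ℝ := 13 + 2 * Real.log s + |Real.log δ| with hQ
  have hQ0 : 0 < Q := by
    have := abs_nonneg (Real.log δ)
    rw [hQ]; linarith
  refine ⟨Q / δ + 1, by positivity, fun σ hσ => ?_⟩
  have hx0 : 0 < Q / δ * σ := by positivity
  refine ⟨⌈Q / δ * σ⌉₊, Nat.ceil_pos.2 hx0, ?_, ?_⟩
  · have := Nat.ceil_lt_add_one hx0.le
    nlinarith
  · set J := ⌈Q / δ * σ⌉₊ with hJ
    have h1 : Q / δ * σ ≤ J := Nat.le_ceil _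
    have h2 : Q * σ ≤ δ * J := by
      have e : Q * σ = δ * (Q / δ * σ) := by field_simp
      rw [e]
      exact mul_le_mul_of_nonneg_left h1 hδ0.le
    have hJ0 : (0 : ℝ) < J := lt_of_lt_of_le hx0 h1
    have h3 : ρ ^ J = Real.exp (-(2 * (δ * J))) := by
      rw [← Real.rpow_natCast, Real.rpow_def_of_pos hρ0]
      congr 1
      rw [hδ]; ring
    have h4 : (J : ℝ) ≤ Real.exp (δ * J) / δ := by
      rw [le_div_iff₀ hδ0]
      have := Real.add_one_le_exp (δ * (J : ℝ))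
      linarith
    have h5 : (s : ℝ) ^ 2 = Real.exp (2 * Real.log s) := by
      rw [two_mul, Real.exp_add, Real.exp_log hs0, pow_two]
    have h6 : 1 / δ = Real.exp (-Real.log δ) := by
      rw [Real.exp_neg, Real.exp_log hδ0, one_div]
    unfold kap
    calc (J : ℝ) * (s : ℝ) ^ 2 * Real.exp 2 * ρ ^ J
        ≤ Real.exp (δ * J) / δ * (s : ℝ) ^ 2 * Real.exp 2 * ρ ^ J := by
          refine mul_le_mul_of_nonneg_right ?_ (by positivity)
          refine mul_le_mul_of_nonneg_right ?_ (by positivity)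
          exact mul_le_mul_of_nonneg_right h4 (by positivity)
      _ = Real.exp (δ * J + -Real.log δ + 2 * Real.log s + 2 + -(2 * (δ * J))) := by
          rw [div_eq_mul_one_div, h6, h5, h3]
          simp only [Real.exp_add]
      _ < Real.exp (-(10 * σ)) := by
          apply Real.exp_lt_exp.2
          have h7 : -Real.log δ ≤ |Real.log δ| := neg_le_abs _
          have h8 : 10 * σ + 3 + 2 * Real.log s + |Real.log δ| ≤ Q * σ := by
            have := abs_nonneg (Real.log δ)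
            rw [hQ]; nlinarith
          linarith

/-- The main theorem. -/
theorem main (s : ℕ) (D : Finset ℕ) (h0D : 0 ∈ D) (hD : ∀ d ∈ D, d < s) (hg : D.gcd id = 1) :
    2 ≤ s ∧ ∃ C : ℝ, 0 < C ∧ ∀ σ : ℝ, 1 ≤ σ →
      ∀ q b Y : ℕ, 2 ≤ q → Nat.Coprime s q → b ∣ q →
        (∀ c ∈ SparseSet s (kap σ), c ∣ q → c ∣ b) → 1 ≤ Y →
        (∀ μ : ℕ, ∃ x < Y, x ≡ μ [MOD b] ∧ ∀ i, x / s ^ i % s ∈ D) →
        ∀ μ : ℕ, ∃ x : ℕ, 0 < x ∧ (x : ℝ) < Y * (q : ℝ) ^ (C * σ) ∧ x ≡ μ [MOD q] ∧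
          ∀ i, x / s ^ i % s ∈ D := by
  obtain ⟨d1, hd1, hd1'⟩ : ∃ d ∈ D, d ≠ 0 := by
    by_contra hcon
    push Not at hcon
    have : D.gcd id = 0 := Finset.gcd_eq_zero_iff.2 fun d hd => hcon d hd
    omega
  have hs : 2 ≤ s := by have := hD d1 hd1; omega
  refine ⟨hs, ?_⟩
  have hs0 : 0 < s := by omega
  have hsr : (2 : ℝ) ≤ s := by exact_mod_cast hs
  have hDc : 0 < D.card := card_pos.2 ⟨0, h0D⟩
  obtain ⟨ρ, hρ0, hρ1, hρ⟩ := exists_rho D h0D hg hs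
  obtain ⟨R, hR, hJex⟩ := exists_windows hs hρ0 hρ1
  set lg : ℝ := (Nat.clog 2 s : ℝ) with hlg
  have hlg0 : 0 ≤ lg := by rw [hlg]; exact Nat.cast_nonneg _
  refine ⟨4 * R + (4 * R + 2) * lg, by positivity, ?_⟩
  intro σ hσ q b Y hq hcop hbq hB hY hYb μ
  obtain ⟨J, hJ, hJR, hJρ⟩ := hJex σ hσ
  have : NeZero q := ⟨by omega⟩
  have hb0 : b ≠ 0 := by rintro rfl; rw [zero_dvd_iff] at hbq; omega
  have : NeZero b := ⟨hb0⟩
  set n := Nat.clog s q with hn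
  have hn1 : 1 ≤ n := Nat.clog_pos (by omega) hq
  set L := J * (2 * wl s q) with hL
  set m := Nat.clog s Y with hm
  have hnq : s ^ n ≤ s * q := by
    obtain ⟨n', hn'⟩ : ∃ n', n = n' + 1 := ⟨n - 1, by omega⟩
    have h1 := Nat.pow_pred_clog_lt_self (b := s) (by omega) hq
    rw [← hn, hn', Nat.pred_succ] at h1
    rw [hn', pow_succ, mul_comm]
    exact Nat.mul_le_mul_left _ h1.le
  have hYm : Y ≤ s ^ m := Nat.le_pow_clog (by omega) Y
  have hmY : s ^ m ≤ s * Y := by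
    rcases Nat.lt_or_ge Y 2 with h | h
    · have h1 : Y = 1 := by omega
      rw [hm, h1, Nat.clog_one_right, pow_zero]; omega
    · obtain ⟨m', hm'⟩ : ∃ m', m = m' + 1 := by
        have := Nat.clog_pos (b := s) (by omega) h
        exact ⟨m - 1, by omega⟩
      have h1 := Nat.pow_pred_clog_lt_self (b := s) (by omega) h
      rw [← hm, hm', Nat.pred_succ] at h1
      rw [hm', pow_succ, mul_comm]
      exact Nat.mul_le_mul_left _ h1.le
  have hP := freq_sum_lt (b := b) hs hq hcop (kap_pos σ) hB D hDc hρ0 hρ1 hρ hJ hJρ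
  -- the complete residue system mod `b`
  choose g hgY hgmod hgD using fun z : ZMod b => hYb z.val
  have hgz : ∀ z, ((g z : ℕ) : ZMod b) = z := by
    intro z
    have := (ZMod.natCast_eq_natCast_iff _ _ _).2 (hgmod z)
    rw [this, ZMod.natCast_zmod_val]
  have hsu : IsUnit (s : ZMod q) := (ZMod.isUnit_iff_coprime s q).2 hcop
  obtain ⟨z, δ, hδ, hrep⟩ := exists_rep (m := m) D g hgz hsu hP
    ((μ : ZMod q) - (d1 : ZMod q) * (s : ZMod q) ^ (m + L))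
  obtain ⟨hx1, hx2⟩ := allIn_sum hs0 h0D hD L δ hδ
  set xδ := ∑ i : Fin L, δ i * s ^ (i : ℕ) with hxδ
  have hd1s := hD d1 hd1
  have hw1 : xδ + s ^ L * d1 < s ^ (L + 1) := by
    calc xδ + s ^ L * d1 < s ^ L + s ^ L * d1 := by omega
      _ = s ^ L * (d1 + 1) := by ring
      _ ≤ s ^ L * s := Nat.mul_le_mul_left _ hd1s
      _ = s ^ (L + 1) := (pow_succ _ _).symm
  have hw2 : ∀ i, (xδ + s ^ L * d1) / s ^ i % s ∈ D :=
    allIn_add hs0 hx1 hx2 (allIn_digit h0D hD hd1)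
  have hgm : g z < s ^ m := lt_of_lt_of_le (hgY z) hYm
  refine ⟨g z + s ^ m * (xδ + s ^ L * d1), ?_, ?_, ?_, ?_⟩
  · have h1 : 0 < s ^ m := pow_pos hs0 m
    have h2 : 0 < s ^ L := pow_pos hs0 L
    have h3 : 0 < s ^ m * (xδ + s ^ L * d1) :=
      Nat.mul_pos h1 (by have := Nat.mul_pos h2 (Nat.pos_of_ne_zero hd1'); omega)
    omega
  · have h1 : g z + s ^ m * (xδ + s ^ L * d1) < s ^ m * s ^ (L + 1) := by
      calc g z + s ^ m * (xδ + s ^ L * d1) < s ^ m + s ^ m * (xδ + s ^ L * d1) := by omega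
        _ = s ^ m * (xδ + s ^ L * d1 + 1) := by ring
        _ ≤ s ^ m * s ^ (L + 1) := Nat.mul_le_mul_left _ hw1
    have h2 : s ^ L ≤ (s * q) ^ (4 * J) := by
      have e : L = n * (4 * J) := by rw [hL]; unfold wl; rw [← hn]; ring
      rw [e, pow_mul]
      exact Nat.pow_le_pow_left hnq _
    have h3 : s ≤ q ^ Nat.clog 2 s :=
      (Nat.le_pow_clog (by norm_num) s).trans (Nat.pow_le_pow_left hq _)
    have h4 : s ^ m * s ^ (L + 1) ≤ Y * q ^ (4 * J + (4 * J + 2) * Nat.clog 2 s) := by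
      calc s ^ m * s ^ (L + 1) ≤ (s * Y) * (s ^ L * s) := by
            rw [pow_succ s L]; exact Nat.mul_le_mul_right _ hmY
        _ ≤ (s * Y) * ((s * q) ^ (4 * J) * s) :=
            Nat.mul_le_mul_left _ (Nat.mul_le_mul_right _ h2)
        _ = Y * (q ^ (4 * J) * s ^ (4 * J + 2)) := by rw [mul_pow, pow_add]; ring
        _ ≤ Y * (q ^ (4 * J) * (q ^ Nat.clog 2 s) ^ (4 * J + 2)) :=
            Nat.mul_le_mul_left _ (Nat.mul_le_mul_left _ (Nat.pow_le_pow_left h3 _))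
        _ = Y * q ^ (4 * J + (4 * J + 2) * Nat.clog 2 s) := by
            rw [← pow_mul, ← pow_add, mul_comm (Nat.clog 2 s)]
    have h5 : g z + s ^ m * (xδ + s ^ L * d1) <
        Y * q ^ (4 * J + (4 * J + 2) * Nat.clog 2 s) := lt_of_lt_of_le h1 h4
    have h6 : ((g z + s ^ m * (xδ + s ^ L * d1) : ℕ) : ℝ) <
        Y * (q : ℝ) ^ (4 * J + (4 * J + 2) * Nat.clog 2 s) := by exact_mod_cast h5
    refine lt_of_lt_of_le h6 ?_
    refine mul_le_mul_of_nonneg_left ?_ (Nat.cast_nonneg _)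
    rw [← Real.rpow_natCast]
    have hq1 : (1 : ℝ) ≤ q := by exact_mod_cast (by omega : 1 ≤ q)
    refine Real.rpow_le_rpow_of_exponent_le hq1 ?_
    push_cast
    rw [← hlg]
    have h7 : 4 * (J : ℝ) ≤ 4 * R * σ := by linarith
    have h8 : 4 * (J : ℝ) + 2 ≤ (4 * R + 2) * σ := by nlinarith
    have h9 : (4 * (J : ℝ) + 2) * lg ≤ (4 * R + 2) * σ * lg :=
      mul_le_mul_of_nonneg_right h8 hlg0
    calc 4 * (J : ℝ) + (4 * J + 2) * lg ≤ 4 * R * σ + (4 * R + 2) * σ * lg := add_le_add h7 h9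
      _ = _ := by ring
  · rw [← ZMod.natCast_eq_natCast_iff]
    have h1 : ((xδ : ℕ) : ZMod q) = ∑ i : Fin L, (δ i : ZMod q) * (s : ZMod q) ^ (i : ℕ) := by
      rw [hxδ]; push_cast; rfl
    have h2 : ((g z + s ^ m * (xδ + s ^ L * d1) : ℕ) : ZMod q) =
        ((g z : ZMod q) + (s : ZMod q) ^ m * ∑ i : Fin L, (δ i : ZMod q) * (s : ZMod q) ^ (i : ℕ)) +
          (d1 : ZMod q) * (s : ZMod q) ^ (m + L) := by
      rw [← h1]; push_cast; ring
    rw [h2, hrep]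
    ring
  · exact allIn_add hs0 hgm (hgD z) hw2

/-! ### Multiples of the elements of a sparse set -/

/-- The sum of the reciprocals. -/
lemma sum_inv {P : Set ℕ} {T A : ℝ} (hT : 0 < T) (hP : ∀ c ∈ P, T < c)
    (hcnt : ∀ (k : ℕ) (G : Finset ℕ), (∀ c ∈ G, c ∈ P ∧ (c : ℝ) ≤ 4 ^ (k + 1) * T) →
      (G.card : ℝ) ≤ 2 ^ (k + 1) * A) : ∀ (K : ℕ) (G : Finset ℕ),
    (∀ c ∈ G, c ∈ P ∧ (c : ℝ) ≤ 4 ^ K * T) →
      ∑ c ∈ G, (1 : ℝ) / c ≤ 4 * A / T * (1 - (1 / 2) ^ K) := by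
  classical
  intro K
  induction K with
  | zero =>
    intro G hG
    have : G = ∅ := by
      rw [Finset.eq_empty_iff_forall_notMem]
      intro c hc
      obtain ⟨h1, h2⟩ := hG c hc
      rw [pow_zero, one_mul] at h2
      exact absurd (hP c h1) (not_lt.2 h2)
    rw [this, sum_empty, pow_zero, sub_self, mul_zero]
  | succ K ih =>
    intro G hG
    rw [← sum_filter_add_sum_filter_not G fun c : ℕ => (c : ℝ) ≤ 4 ^ K * T]
    have h1 := ih (G.filter fun c : ℕ => (c : ℝ) ≤ 4 ^ K * T) fun c hc => by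
      rw [mem_filter] at hc
      exact ⟨(hG c hc.1).1, hc.2⟩
    set G2 := G.filter fun c : ℕ => ¬ (c : ℝ) ≤ 4 ^ K * T with hG2
    have h2 : (G2.card : ℝ) ≤ 2 ^ (K + 1) * A := hcnt K G2 fun c hc => by
      rw [hG2, mem_filter] at hc
      exact hG c hc.1
    have h4 : ∑ c ∈ G2, (1 : ℝ) / c ≤ G2.card * (1 / (4 ^ K * T)) := by
      rw [← nsmul_eq_mul, ← sum_const]
      refine sum_le_sum fun c hc => ?_
      rw [hG2, mem_filter, not_le] at hc
      exact one_div_le_one_div_of_le (by positivity) hc.2.le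
    have h5 : (G2.card : ℝ) * (1 / (4 ^ K * T)) ≤ 2 ^ (K + 1) * A * (1 / (4 ^ K * T)) :=
      mul_le_mul_of_nonneg_right h2 (by positivity)
    have h6 : (2 : ℝ) ^ (K + 1) * A * (1 / (4 ^ K * T)) =
        4 * A / T * (1 / 2 * (1 / 2) ^ K) := by
      have : (4 : ℝ) ^ K = 2 ^ K * 2 ^ K := by rw [← mul_pow]; norm_num
      rw [this, div_pow, one_pow, pow_succ]
      field_simp
      ring
    calc _ ≤ 4 * A / T * (1 - (1 / 2) ^ K) + 4 * A / T * (1 / 2 * (1 / 2) ^ K) :=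
          add_le_add h1 (h4.trans (h5.trans h6.le))
      _ = _ := by rw [pow_succ]; ring

/-- The number of multiples. -/
theorem mult_count {P : Set ℕ} {T A : ℝ} (hT : 0 < T) (hA : 0 ≤ A) (hP : ∀ c ∈ P, T < c)
    (hcnt : ∀ (k : ℕ) (G : Finset ℕ), (∀ c ∈ G, c ∈ P ∧ (c : ℝ) ≤ 4 ^ (k + 1) * T) →
      (G.card : ℝ) ≤ 2 ^ (k + 1) * A) (X : ℕ) (F : Finset ℕ)
    (hF : ∀ q ∈ F, 1 ≤ q ∧ q ≤ X ∧ ∃ c ∈ P, c ∣ q) :
    (F.card : ℝ) ≤ X * (4 * A / T) := by
  classical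
  set G := (Icc 1 X).filter fun c => c ∈ P with hG
  have hsub : F ⊆ G.biUnion fun c => (Ioc 0 X).filter fun q => c ∣ q := by
    intro q hq
    obtain ⟨h1, h2, c, hc, hcq⟩ := hF q hq
    rw [mem_biUnion]
    refine ⟨c, ?_, ?_⟩
    · rw [hG, mem_filter, mem_Icc]
      exact ⟨⟨Nat.pos_of_dvd_of_pos hcq (by omega), (Nat.le_of_dvd (by omega) hcq).trans h2⟩, hc⟩
    · rw [mem_filter, mem_Ioc]
      exact ⟨⟨by omega, h2⟩, hcq⟩
  have h1 : F.card ≤ ∑ c ∈ G, X / c := by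
    refine (card_le_card hsub).trans (card_biUnion_le.trans ?_)
    refine sum_le_sum fun c _ => ?_
    rw [Nat.Ioc_filter_dvd_card_eq_div]
  have h2 : (F.card : ℝ) ≤ X * ∑ c ∈ G, (1 : ℝ) / c := by
    calc (F.card : ℝ) ≤ ((∑ c ∈ G, X / c : ℕ) : ℝ) := by exact_mod_cast h1
      _ = ∑ c ∈ G, ((X / c : ℕ) : ℝ) := by push_cast; rfl
      _ ≤ ∑ c ∈ G, (X : ℝ) * (1 / c) := by
          refine sum_le_sum fun c _ => ?_
          rw [mul_one_div]
          exact Nat.cast_div_le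
      _ = _ := by rw [mul_sum]
  obtain ⟨K, hK⟩ := pow_unbounded_of_one_lt ((X : ℝ) / T) (by norm_num : (1 : ℝ) < 4)
  have h3 := sum_inv hT hP hcnt K G fun c hc => by
    rw [hG, mem_filter, mem_Icc] at hc
    refine ⟨hc.2, ?_⟩
    have h4 : (c : ℝ) ≤ X := by exact_mod_cast hc.1.2
    rw [div_lt_iff₀ hT] at hK
    linarith
  have h7 : 4 * A / T * (1 - (1 / 2) ^ K) ≤ 4 * A / T := by
    have : (0 : ℝ) ≤ (1 / 2) ^ K := by positivity
    have h8 : 0 ≤ 4 * A / T := by positivity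
    nlinarith
  exact h2.trans (mul_le_mul_of_nonneg_left (h3.trans h7) (Nat.cast_nonneg _))

lemma exp_neg_le_half {σ : ℝ} (hσ : 1 ≤ σ) : Real.exp (-σ) ≤ 1 / 2 := by
  rw [Real.exp_neg]
  have := E_large hσ
  rw [inv_eq_one_div, div_le_div_iff₀ (Real.exp_pos _) (by norm_num)]
  linarith

/-- The multiples of the elements of the sparse set. -/
theorem mult_count_all {s : ℕ} {σ : ℝ} (hs : 2 ≤ s) (hσ : 1 ≤ σ) (X : ℕ) (F : Finset ℕ)
    (hF : ∀ q ∈ F, 1 ≤ q ∧ q ≤ X ∧ ∃ c ∈ SparseSet s (kap σ), c ∣ q) :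
    (F.card : ℝ) ≤ 11 * X / Real.exp (Real.exp σ) := by
  set Z := Real.exp (Real.exp σ) with hZ
  have hZ0 : 0 < Z := Real.exp_pos _
  have h := mult_count (P := SparseSet s (kap σ)) (T := Z) (A := Real.exp 1) hZ0
    (Real.exp_pos _).le (fun c hc => elem_gt hs hσ hc) (fun k G hG => by
      have hy0 : 0 ≤ 4 ^ (k + 1) * Z := by positivity
      have h3 := elem_count hs hσ ⌊4 ^ (k + 1) * Z⌋₊ G fun c hc =>
        ⟨(hG c hc).1, Nat.le_floor (hG c hc).2⟩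
      refine h3.trans ?_
      calc ((⌊4 ^ (k + 1) * Z⌋₊ : ℕ) : ℝ) ^ Real.exp (-σ)
          ≤ (4 ^ (k + 1) * Z) ^ Real.exp (-σ) :=
            Real.rpow_le_rpow (Nat.cast_nonneg _) (Nat.floor_le hy0) (Real.exp_pos _).le
        _ = (4 ^ (k + 1) : ℝ) ^ Real.exp (-σ) * Z ^ Real.exp (-σ) :=
            Real.mul_rpow (by positivity) hZ0.le
        _ ≤ 2 ^ (k + 1) * Real.exp 1 := by
            refine mul_le_mul ?_ ?_ (by positivity) (by positivity)
            · calc (4 ^ (k + 1) : ℝ) ^ Real.exp (-σ) ≤ (4 ^ (k + 1) : ℝ) ^ (1 / 2 : ℝ) :=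
                    Real.rpow_le_rpow_of_exponent_le (one_le_pow₀ (by norm_num))
                      (exp_neg_le_half hσ)
                _ = 2 ^ (k + 1) := by
                    rw [← Real.sqrt_eq_rpow]
                    have : (4 : ℝ) ^ (k + 1) = (2 ^ (k + 1)) ^ 2 := by
                      rw [← pow_mul, mul_comm, pow_mul]; norm_num
                    rw [this, Real.sqrt_sq (by positivity)]
            · rw [hZ, ← Real.exp_mul]
              apply Real.exp_le_exp.2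
              rw [Real.exp_neg, mul_inv_cancel₀ (Real.exp_pos _).ne']) X F hF
  refine h.trans ?_
  have e1 := Real.exp_one_lt_d9
  have h8 : 4 * Real.exp 1 / Z ≤ 11 / Z := div_le_div_of_nonneg_right (by linarith) hZ0.le
  calc X * (4 * Real.exp 1 / Z) ≤ X * (11 / Z) := mul_le_mul_of_nonneg_left h8 (Nat.cast_nonneg _)
    _ = _ := by ring

/-- The multiples of the large elements of the sparse set. -/
theorem mult_count_tail {s : ℕ} (hs : 2 ≤ s) {T : ℝ} (hT : 0 < T) (X : ℕ) (F : Finset ℕ)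
    (hF : ∀ q ∈ F, 1 ≤ q ∧ q ≤ X ∧ ∃ c ∈ SparseSet s (kap 1), T < (c : ℝ) ∧ c ∣ q) :
    (F.card : ℝ) ≤ X * (4 * √T / T) := by
  refine mult_count (P := {c | c ∈ SparseSet s (kap 1) ∧ T < (c : ℝ)}) (T := T) (A := √T) hT
    (Real.sqrt_nonneg _) (fun c hc => hc.2) (fun k G hG => ?_) X F fun q hq => ?_
  · have hy0 : 0 ≤ 4 ^ (k + 1) * T := by positivity
    have h3 := elem_count hs (le_refl (1 : ℝ)) ⌊4 ^ (k + 1) * T⌋₊ G fun c hc =>
      ⟨(hG c hc).1.1, Nat.le_floor (hG c hc).2⟩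
    refine h3.trans ?_
    rcases Nat.eq_zero_or_pos ⌊4 ^ (k + 1) * T⌋₊ with h0 | h0
    · rw [h0, Nat.cast_zero, Real.zero_rpow (Real.exp_pos _).ne']
      positivity
    calc ((⌊4 ^ (k + 1) * T⌋₊ : ℕ) : ℝ) ^ Real.exp (-1)
        ≤ ((⌊4 ^ (k + 1) * T⌋₊ : ℕ) : ℝ) ^ (1 / 2 : ℝ) :=
          Real.rpow_le_rpow_of_exponent_le (by exact_mod_cast h0) (exp_neg_le_half (le_refl _))
      _ ≤ (4 ^ (k + 1) * T) ^ (1 / 2 : ℝ) :=
          Real.rpow_le_rpow (Nat.cast_nonneg _) (Nat.floor_le hy0) (by norm_num)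
      _ = 2 ^ (k + 1) * √T := by
          rw [← Real.sqrt_eq_rpow, Real.sqrt_mul (by positivity)]
          have : (4 : ℝ) ^ (k + 1) = (2 ^ (k + 1)) ^ 2 := by
            rw [← pow_mul, mul_comm, pow_mul]; norm_num
          rw [this, Real.sqrt_sq (by positivity)]
  · obtain ⟨h1, h2, c, hc, hcT, hcq⟩ := hF q hq
    exact ⟨h1, h2, c, ⟨hc, hcT⟩, hcq⟩

end Pool.Agent.Lib.P1aceS
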