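import Mathlib

set_option autoImplicit false

/-!
# Integers with a large smooth divisor
-/

namespace Pool.Agent.Lib.P1aceS

open Finset

/-- `n ↦ n ^ (-a)` as a monoid homomorphism. -/
noncomputable def powHom (a : ℝ) : ℕ →* ℝ where
  toFun n := (n : ℝ) ^ a
  map_one' := by rw [Nat.cast_one, Real.one_rpow]
  map_mul' m n := by rw [Nat.cast_mul, Real.mul_rpow (Nat.cast_nonneg _) (Nat.cast_nonneg _)]

lemma powHom_apply (a : ℝ) (n : ℕ) : powHom a n = (n : ℝ) ^ a := rfl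

/-- Rankin's bound. -/
theorem rankin {T : ℕ} (hT : 8 ≤ T) (G : Finset ℕ) (hG : ∀ b ∈ G, b ∈ Nat.smoothNumbers (T + 1)) :
    ∑ b ∈ G, (b : ℝ) ^ (1 / Real.log T - 1) ≤ Real.exp (11 * (1 + Real.log T)) := by
  have hTr : (8 : ℝ) ≤ T := by exact_mod_cast hT
  have hlT : 2 ≤ Real.log T := by
    have h1 : Real.log 8 = 3 * Real.log 2 := by
      rw [show (8 : ℝ) = 2 ^ (3 : ℕ) by norm_num, Real.log_pow]; push_cast; ring
    have h2 := Real.log_two_gt_d9
    have h3 : Real.log 8 ≤ Real.log T := Real.log_le_log (by norm_num) hTr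
    linarith
  set β : ℝ := 1 / Real.log T with hβ
  have hβ0 : 0 < β := by positivity
  have hβ1 : β ≤ 1 / 2 := one_div_le_one_div_of_le (by norm_num) hlT
  have hf34 : ∀ {p : ℕ}, p.Prime → (p : ℝ) ^ (β - 1) ≤ 3 / 4 := by
    intro p hp
    have hp2 : (2 : ℝ) ≤ p := by exact_mod_cast hp.two_le
    calc (p : ℝ) ^ (β - 1) ≤ (2 : ℝ) ^ (β - 1) :=
          Real.rpow_le_rpow_of_nonpos (by norm_num) hp2 (by linarith)
      _ ≤ (2 : ℝ) ^ (-(1 / 2) : ℝ) :=
          Real.rpow_le_rpow_of_exponent_le (by norm_num) (by linarith)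
      _ = (√2)⁻¹ := by rw [Real.rpow_neg (by norm_num), ← Real.sqrt_eq_rpow]
      _ ≤ 3 / 4 := by
          have : (4 / 3 : ℝ) ≤ √2 := Real.le_sqrt_of_sq_le (by norm_num)
          rw [inv_le_comm₀ (by positivity) (by norm_num)]
          norm_num at this ⊢
          exact this
  have hnorm : ∀ {p : ℕ}, p.Prime → ‖powHom (β - 1) p‖ < 1 := by
    intro p hp
    rw [powHom_apply, Real.norm_of_nonneg (Real.rpow_nonneg (Nat.cast_nonneg _) _)]
    linarith [hf34 hp]
  have hsum := (EulerProduct.summable_and_hasSum_smoothNumbers_prod_primesBelow_geometric hnorm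
    (T + 1)).2
  have h1 : ∑ b ∈ G, (b : ℝ) ^ (β - 1) ≤ ∏ p ∈ (T + 1).primesBelow, (1 - powHom (β - 1) p)⁻¹ := by
    have h2 := (hasSum_subtype_iff_indicator (f := fun m : ℕ => powHom (β - 1) m)).1 hsum
    have h3 := sum_le_hasSum G (fun b _ => Set.indicator_nonneg
      (fun x _ => Real.rpow_nonneg (Nat.cast_nonneg x) _) b) h2
    refine le_trans (le_of_eq ?_) h3
    refine sum_congr rfl fun b hb => ?_
    rw [Set.indicator_of_mem (hG b hb)]
  refine h1.trans ?_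
  have h4 : ∀ p ∈ (T + 1).primesBelow, (1 - powHom (β - 1) p)⁻¹ ≤ Real.exp (11 * (p : ℝ)⁻¹) := by
    intro p hp
    have hpp := Nat.prime_of_mem_primesBelow hp
    have hpT : p ≤ T := Nat.lt_succ_iff.1 (Nat.lt_of_mem_primesBelow hp)
    have hp0 : (0 : ℝ) < p := by exact_mod_cast hpp.pos
    rw [powHom_apply]
    set x : ℝ := (p : ℝ) ^ (β - 1) with hx
    have hx0 : 0 < x := Real.rpow_pos_of_pos hp0 _
    have hx1 : x ≤ 3 / 4 := hf34 hpp
    have h5 : (1 - x)⁻¹ ≤ 1 + 4 * x := by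
      rw [inv_le_iff_one_le_mul₀ (by linarith)]
      nlinarith
    have h6 : x ≤ Real.exp 1 * (p : ℝ)⁻¹ := by
      rw [hx, Real.rpow_sub hp0, Real.rpow_one, div_eq_mul_inv]
      refine mul_le_mul_of_nonneg_right ?_ (by positivity)
      calc (p : ℝ) ^ β ≤ (T : ℝ) ^ β :=
            Real.rpow_le_rpow hp0.le (by exact_mod_cast hpT) hβ0.le
        _ = Real.exp 1 := by
            rw [Real.rpow_def_of_pos (by linarith), hβ, mul_one_div_cancel (by linarith)]
    have h7 := Real.exp_one_lt_d9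
    calc (1 - x)⁻¹ ≤ 1 + 4 * x := h5
      _ ≤ 11 * (p : ℝ)⁻¹ + 1 := by
          have : (0 : ℝ) < (p : ℝ)⁻¹ := by positivity
          nlinarith
      _ ≤ _ := Real.add_one_le_exp _
  calc ∏ p ∈ (T + 1).primesBelow, (1 - powHom (β - 1) p)⁻¹
      ≤ ∏ p ∈ (T + 1).primesBelow, Real.exp (11 * (p : ℝ)⁻¹) := by
        refine prod_le_prod (fun p hp => ?_) h4
        have := hf34 (Nat.prime_of_mem_primesBelow hp)
        rw [powHom_apply, inv_nonneg]
        linarith
    _ = Real.exp (11 * ∑ p ∈ (T + 1).primesBelow, (p : ℝ)⁻¹) := by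
        rw [← Real.exp_sum, mul_sum]
    _ ≤ Real.exp (11 * (1 + Real.log T)) := by
        apply Real.exp_le_exp.2
        refine mul_le_mul_of_nonneg_left ?_ (by norm_num)
        have h8 := harmonic_le_one_add_log T
        rw [harmonic_eq_sum_Icc, Rat.cast_sum] at h8
        refine le_trans ?_ h8
        have h9 : ∀ i ∈ Icc 1 T, (((i : ℚ)⁻¹ : ℚ) : ℝ) = (i : ℝ)⁻¹ := by
          intro i _; push_cast; rfl
        rw [sum_congr rfl h9]
        refine sum_le_sum_of_subset_of_nonneg (fun p hp => ?_) fun i _ _ => by positivity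
        rw [mem_Icc]
        exact ⟨(Nat.prime_of_mem_primesBelow hp).one_le,
          Nat.lt_succ_iff.1 (Nat.lt_of_mem_primesBelow hp)⟩

/-- Integers with a large smooth divisor. -/
theorem smooth_count {T : ℕ} (hT : 8 ≤ T) {Z : ℝ} (hZ : 0 < Z) (X : ℕ) (F : Finset ℕ)
    (hF : ∀ q ∈ F, 1 ≤ q ∧ q ≤ X ∧ ∃ b, b ∣ q ∧ Z < (b : ℝ) ∧ b ∈ Nat.smoothNumbers (T + 1)) :
    (F.card : ℝ) ≤ X * (Z ^ (-(1 / Real.log T)) * Real.exp (11 * (1 + Real.log T))) := by
  classical
  have hTr : (8 : ℝ) ≤ T := by exact_mod_cast hT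
  have hlT : 0 < Real.log T := Real.log_pos (by linarith)
  set β : ℝ := 1 / Real.log T with hβ
  have hβ0 : 0 < β := by positivity
  set G := (Icc 1 X).filter fun b : ℕ => Z < (b : ℝ) ∧ b ∈ Nat.smoothNumbers (T + 1) with hG
  have hsub : F ⊆ G.biUnion fun c => (Ioc 0 X).filter fun q => c ∣ q := by
    intro q hq
    obtain ⟨h1, h2, c, hcq, hc⟩ := hF q hq
    rw [mem_biUnion]
    refine ⟨c, ?_, ?_⟩
    · rw [hG, mem_filter, mem_Icc]
      exact ⟨⟨Nat.pos_of_dvd_of_pos hcq (by omega), (Nat.le_of_dvd (by omega) hcq).trans h2⟩, hc⟩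
    · rw [mem_filter, mem_Ioc]
      exact ⟨⟨by omega, h2⟩, hcq⟩
  have h1 : F.card ≤ ∑ c ∈ G, X / c := by
    refine (card_le_card hsub).trans (card_biUnion_le.trans ?_)
    refine sum_le_sum fun c _ => ?_
    rw [Nat.Ioc_filter_dvd_card_eq_div]
  calc (F.card : ℝ) ≤ ((∑ c ∈ G, X / c : ℕ) : ℝ) := by exact_mod_cast h1
    _ = ∑ c ∈ G, ((X / c : ℕ) : ℝ) := by push_cast; rfl
    _ ≤ ∑ c ∈ G, (X : ℝ) * (Z ^ (-β) * (c : ℝ) ^ (β - 1)) := by
        refine sum_le_sum fun c hc => ?_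
        rw [hG, mem_filter, mem_Icc] at hc
        have hc0 : (0 : ℝ) < c := by
          have := hc.1.1
          exact_mod_cast (by omega : 0 < c)
        refine (Nat.cast_div_le (α := ℝ)).trans ?_
        rw [div_eq_mul_inv]
        refine mul_le_mul_of_nonneg_left ?_ (Nat.cast_nonneg _)
        rw [Real.rpow_sub hc0, Real.rpow_one, div_eq_mul_inv, ← mul_assoc, Real.rpow_neg hZ.le]
        refine le_mul_of_one_le_left (by positivity) ?_
        rw [← div_eq_inv_mul, one_le_div (Real.rpow_pos_of_pos hZ _)]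
        exact Real.rpow_le_rpow hZ.le hc.2.1.le hβ0.le
    _ = X * (Z ^ (-β) * ∑ c ∈ G, (c : ℝ) ^ (β - 1)) := by rw [← mul_sum, ← mul_sum]
    _ ≤ X * (Z ^ (-β) * Real.exp (11 * (1 + Real.log T))) := by
        refine mul_le_mul_of_nonneg_left ?_ (Nat.cast_nonneg _)
        refine mul_le_mul_of_nonneg_left ?_ (Real.rpow_nonneg hZ.le _)
        refine rankin hT G fun b hb => ?_
        rw [hG, mem_filter] at hb
        exact hb.2.2

end Pool.Agent.Lib.P1aceS
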