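import Mathlib
import Pool.Agent.Lib.P1aceS.Final
import Pool.Agent.Lib.P1aceS.Smooth

set_option autoImplicit false

/-!
# All moduli, and almost all moduli
-/

namespace Pool.Agent.Lib.P1aceS

open Finset

/-- The transfer from the divisor `b` to `q` with the constant `C`. -/
def Transfer (s : ℕ) (D : Finset ℕ) (C : ℝ) : Prop :=
  ∀ σ : ℝ, 1 ≤ σ → ∀ q b Y : ℕ, 2 ≤ q → Nat.Coprime s q → b ∣ q →
    (∀ c ∈ SparseSet s (kap σ), c ∣ q → c ∣ b) → 1 ≤ Y →
    (∀ μ : ℕ, ∃ x < Y, x ≡ μ [MOD b] ∧ ∀ i, x / s ^ i % s ∈ D) →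
    ∀ μ : ℕ, ∃ x : ℕ, 0 < x ∧ (x : ℝ) < Y * (q : ℝ) ^ (C * σ) ∧ x ≡ μ [MOD q] ∧
      ∀ i, x / s ^ i % s ∈ D

/-- All moduli. -/
theorem hybrid {s : ℕ} (hs : 2 ≤ s) {D : Finset ℕ} (h0D : 0 ∈ D) {C : ℝ} (hC : 0 < C)
    (hT : Transfer s D C) {σ : ℝ} (hσ : 1 ≤ σ) {q b : ℕ} (hq : 2 ≤ q) (hcop : Nat.Coprime s q)
    (hbq : b ∣ q) (hB : ∀ c ∈ SparseSet s (kap σ), c ∣ q → c ∣ b) (μ : ℕ) :
    ∃ x : ℕ, 0 < x ∧
      (x : ℝ) < (b : ℝ) ^ ((C + 1) * max 1 (Real.log (Real.log b))) * (q : ℝ) ^ (C * σ) ∧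
      x ≡ μ [MOD q] ∧ ∀ i, x / s ^ i % s ∈ D := by
  have hb0 : 0 < b := Nat.pos_of_dvd_of_pos hbq (by omega)
  rcases Nat.lt_or_ge b 2 with h1 | h2
  · have hb1 : b = 1 := by omega
    subst hb1
    obtain ⟨x, hx1, hx2, hx3, hx4⟩ := hT σ hσ q 1 1 hq hcop hbq hB (le_refl _)
      (fun μ => ⟨0, one_pos, Nat.modEq_one, fun i => by
        rw [Nat.zero_div, Nat.zero_mod]; exact h0D⟩) μ
    refine ⟨x, hx1, ?_, hx3, hx4⟩
    rw [Nat.cast_one, Real.one_rpow]
    rwa [Nat.cast_one] at hx2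
  · set σ' : ℝ := max 1 (Real.log (Real.log b)) with hσ'
    have hσ'1 : 1 ≤ σ' := le_max_left _ _
    have hbr : (2 : ℝ) ≤ b := by exact_mod_cast h2
    have hlb : 0 < Real.log b := Real.log_pos (by linarith)
    have hnone : ∀ c ∈ SparseSet s (kap σ'), ¬ c ∣ b := by
      intro c hc hcb
      have h3 := elem_gt hs hσ'1 hc
      have h4 : (c : ℝ) ≤ b := by exact_mod_cast Nat.le_of_dvd hb0 hcb
      have h5 : Real.log b ≤ Real.exp σ' := by
        rw [← Real.log_le_iff_le_exp hlb]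
        exact le_max_right _ _
      have h6 : (b : ℝ) ≤ Real.exp (Real.exp σ') := by
        rw [← Real.log_le_iff_le_exp (by linarith)]
        exact h5
      linarith
    have hscop : Nat.Coprime s b := Nat.Coprime.coprime_dvd_right hbq hcop
    have hbase : ∀ μ : ℕ, ∃ x : ℕ, 0 < x ∧ (x : ℝ) < (b : ℝ) ^ (C * σ') ∧ x ≡ μ [MOD b] ∧
        ∀ i, x / s ^ i % s ∈ D := by
      intro μ
      obtain ⟨x, hx1, hx2, hx3, hx4⟩ := hT σ' hσ'1 b 1 1 h2 hscop (one_dvd _)
        (fun c hc hcb => absurd hcb (hnone c hc)) (le_refl _)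
        (fun μ => ⟨0, one_pos, Nat.modEq_one, fun i => by
          rw [Nat.zero_div, Nat.zero_mod]; exact h0D⟩) μ
      refine ⟨x, hx1, ?_, hx3, hx4⟩
      rwa [Nat.cast_one, one_mul] at hx2
    set Y := ⌈(b : ℝ) ^ (C * σ')⌉₊ with hY
    have hb1 : (1 : ℝ) ≤ (b : ℝ) ^ (C * σ') :=
      Real.one_le_rpow (by linarith) (by positivity)
    have hY1 : 1 ≤ Y := Nat.one_le_iff_ne_zero.2 (Nat.ceil_pos.2 (by linarith)).ne'
    have hYle : (Y : ℝ) ≤ (b : ℝ) ^ ((C + 1) * σ') := by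
      have h3 := (Nat.ceil_lt_add_one (by linarith : (0 : ℝ) ≤ (b : ℝ) ^ (C * σ'))).le
      rw [← hY] at h3
      have h4 : (b : ℝ) ^ ((C + 1) * σ') = (b : ℝ) ^ σ' * (b : ℝ) ^ (C * σ') := by
        rw [← Real.rpow_add (by linarith)]; congr 1; ring
      have h5 : (2 : ℝ) ≤ (b : ℝ) ^ σ' := by
        calc (2 : ℝ) ≤ b := hbr
          _ = (b : ℝ) ^ (1 : ℝ) := (Real.rpow_one _).symm
          _ ≤ _ := Real.rpow_le_rpow_of_exponent_le (by linarith) hσ'1
      rw [h4]
      nlinarith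
    obtain ⟨x, hx1, hx2, hx3, hx4⟩ := hT σ hσ q b Y hq hcop hbq hB hY1 (fun μ => by
      obtain ⟨x, _, hx2, hx3, hx4⟩ := hbase μ
      exact ⟨x, Nat.lt_ceil.2 hx2, hx3, hx4⟩) μ
    refine ⟨x, hx1, lt_of_lt_of_le hx2 ?_, hx3, hx4⟩
    exact mul_le_mul_of_nonneg_right hYle (by positivity)

/-- The rate. -/
noncomputable def rate (X : ℕ) : ℝ := √(Real.log X / max 1 (Real.log (Real.log X)))

/-- A modulus `q` for which the exponent `C` is not allowed. -/
def Fails (s : ℕ) (D : Finset ℕ) (C : ℝ) (q : ℕ) : Prop :=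
  ∃ μ : ℕ, ∀ x : ℕ, 0 < x → (x : ℝ) < (q : ℝ) ^ C → x ≡ μ [MOD q] → ∃ i, x / s ^ i % s ∉ D

/-- A failing modulus has a large divisor in the sparse part. -/
lemma fails_imp {s : ℕ} (hs : 2 ≤ s) {D : Finset ℕ} (h0D : 0 ∈ D) {C : ℝ} (hC : 0 < C)
    (hT : Transfer s D C) {q b : ℕ} (hq : 2 ≤ q) (hcop : Nat.Coprime s q)
    (hbq : b ∣ q) (hB : ∀ c ∈ SparseSet s (kap 1), c ∣ q → c ∣ b)
    (hF : Fails s D (2 * (C + 1)) q) :
    2 ≤ b ∧ Real.log q < max 1 (Real.log (Real.log b)) * Real.log b := by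
  obtain ⟨μ, hμ⟩ := hF
  obtain ⟨x, hx1, hx2, hx3, hx4⟩ := hybrid hs h0D hC hT (le_refl 1) hq hcop hbq hB μ
  have hb0 : 0 < b := Nat.pos_of_dvd_of_pos hbq (by omega)
  have hqr : (2 : ℝ) ≤ q := by exact_mod_cast hq
  have hbr : (1 : ℝ) ≤ b := by exact_mod_cast hb0
  set m := max 1 (Real.log (Real.log b)) with hm
  have hm1 : 1 ≤ m := le_max_left _ _
  have key : Real.log q < m * Real.log b := by
    by_contra hcon
    push Not at hcon
    have h1 : (b : ℝ) ^ m ≤ q := by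
      rw [← Real.log_le_log_iff (Real.rpow_pos_of_pos (by linarith) _) (by linarith),
        Real.log_rpow (by linarith)]
      exact hcon
    have h2 : (x : ℝ) < (q : ℝ) ^ (2 * (C + 1)) := by
      refine lt_of_lt_of_le hx2 ?_
      calc (b : ℝ) ^ ((C + 1) * m) * (q : ℝ) ^ (C * 1)
          = ((b : ℝ) ^ m) ^ (C + 1) * (q : ℝ) ^ (C * 1) := by
            rw [← Real.rpow_mul (by linarith)]; congr 2; ring
        _ ≤ (q : ℝ) ^ (C + 1) * (q : ℝ) ^ (C + 1) := by
            refine mul_le_mul ?_ ?_ (by positivity) (by positivity)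
            · exact Real.rpow_le_rpow (by positivity) h1 (by linarith)
            · exact Real.rpow_le_rpow_of_exponent_le (by linarith) (by linarith)
        _ = _ := by rw [← Real.rpow_add (by linarith)]; congr 1; ring
    obtain ⟨i, hi⟩ := hμ x hx1 h2 hx3
    exact hi (hx4 i)
  refine ⟨?_, key⟩
  by_contra hb
  have hb1 : b = 1 := by omega
  rw [hb1, Nat.cast_one, Real.log_one, mul_zero] at key
  have := Real.log_pos (by linarith : (1 : ℝ) < q)
  linarith

/-- Almost all moduli. -/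
theorem almost_all {s : ℕ} (hs : 2 ≤ s) {D : Finset ℕ} (h0D : 0 ∈ D) {C : ℝ} (hC : 0 < C)
    (hT : Transfer s D C) {X : ℕ} (hX : 1 ≤ X) (F : Finset ℕ)
    (hF : ∀ q ∈ F, 2 ≤ q ∧ q ≤ X ∧ Nat.Coprime s q ∧ Fails s D (2 * (C + 1)) q) :
    (F.card : ℝ) ≤ 8 * X * Real.exp (-(rate X / 20)) := by
  classical
  have hXr : (1 : ℝ) ≤ X := by exact_mod_cast hX
  set L := Real.log X with hL
  have hL0 : 0 ≤ L := Real.log_nonneg hXr
  set m := max 1 (Real.log L) with hm
  have hm1 : 1 ≤ m := le_max_left _ _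
  set y := rate X with hy
  have hy0 : 0 ≤ y := Real.sqrt_nonneg _
  have hy2 : y ^ 2 = L / m := by
    rw [hy]; unfold rate
    rw [Real.sq_sqrt (by positivity)]
  have hy2L : y ^ 2 ≤ L := by
    rw [hy2]; exact div_le_self hL0 hm1
  rcases lt_or_ge y 30 with hy30 | hy30
  · have h1 : F.card ≤ X := by
      have : F ⊆ Icc 1 X := by
        intro q hq
        obtain ⟨h1, h2, _⟩ := hF q hq
        rw [mem_Icc]; omega
      simpa using card_le_card this
    have h2 : (F.card : ℝ) ≤ X := by exact_mod_cast h1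
    have h3 : 1 ≤ 8 * Real.exp (-(y / 20)) := by
      have h4 : Real.exp (-(3 / 2)) ≤ Real.exp (-(y / 20)) :=
        Real.exp_le_exp.2 (by linarith)
      have h5 : Real.exp (3 / 2) ≤ 8 := by
        have h6 : Real.exp (3 / 2) ≤ Real.exp 2 := Real.exp_le_exp.2 (by norm_num)
        have h7 : Real.exp 2 = Real.exp 1 * Real.exp 1 := by rw [← Real.exp_add]; norm_num
        have h8 := Real.exp_one_lt_d9
        have h9 := Real.exp_pos 1
        nlinarith
      have h6 : Real.exp (3 / 2) * Real.exp (-(3 / 2)) = 1 := by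
        rw [← Real.exp_add]; norm_num
      have h7 := Real.exp_pos (-(3 / 2) : ℝ)
      nlinarith
    calc (F.card : ℝ) ≤ X * 1 := by rw [mul_one]; exact h2
      _ ≤ X * (8 * Real.exp (-(y / 20))) := mul_le_mul_of_nonneg_left h3 (by linarith)
      _ = _ := by ring
  -- the main case
  set T := ⌊Real.exp (y / 10)⌋₊ with hTdef
  have hexp : (16 : ℝ) ≤ Real.exp (y / 10) := by
    have h1 : Real.exp 3 ≤ Real.exp (y / 10) := Real.exp_le_exp.2 (by linarith)
    have h2 : Real.exp 3 = Real.exp 1 ^ 3 := by rw [← Real.exp_nat_mul]; norm_num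
    have h3 := Real.exp_one_gt_d9
    have h4 : (2.6 : ℝ) ^ 3 ≤ Real.exp 1 ^ 3 := pow_le_pow_left₀ (by norm_num) (by linarith) 3
    norm_num at h4
    linarith
  have hTle : (T : ℝ) ≤ Real.exp (y / 10) := Nat.floor_le (Real.exp_pos _).le
  have hTge : Real.exp (y / 10) - 1 ≤ T := by
    have := Nat.lt_floor_add_one (Real.exp (y / 10))
    linarith
  have hT8 : 8 ≤ T := by
    rw [hTdef]; exact Nat.le_floor (by push_cast; linarith)
  have hTr : (8 : ℝ) ≤ T := by exact_mod_cast hT8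
  have hT0 : (0 : ℝ) < T := by linarith
  have hlT0 : 0 < Real.log T := Real.log_pos (by linarith)
  have hlT : Real.log T ≤ y / 10 := by
    rw [Real.log_le_iff_le_exp hT0]; exact hTle
  set Z := Real.exp (y ^ 2 / 2) with hZ
  set F1 := F.filter fun q => q * q ≤ X with hF1
  set F2 := F.filter fun q => ∃ c ∈ SparseSet s (kap 1), (T : ℝ) < (c : ℝ) ∧ c ∣ q with hF2
  set F3 := F.filter fun q => ∃ b : ℕ, b ∣ q ∧ Z < (b : ℝ) ∧ b ∈ Nat.smoothNumbers (T + 1) with hF3
  have hcover : F ⊆ F1 ∪ (F2 ∪ F3) := by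
    intro q hq
    obtain ⟨h1, h2, h3, h4⟩ := hF q hq
    rw [mem_union, mem_union]
    by_cases hq1 : q * q ≤ X
    · exact Or.inl (mem_filter.2 ⟨hq, hq1⟩)
    by_cases hq2 : ∃ c ∈ SparseSet s (kap 1), (T : ℝ) < (c : ℝ) ∧ c ∣ q
    · exact Or.inr (Or.inl (mem_filter.2 ⟨hq, hq2⟩))
    refine Or.inr (Or.inr (mem_filter.2 ⟨hq, ?_⟩))
    push Not at hq2
    set G := q.divisors.filter fun c => c ∈ SparseSet s (kap 1) with hG
    have hbq : G.lcm id ∣ q := by
      refine Finset.lcm_dvd fun c hc => ?_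
      rw [hG, mem_filter, Nat.mem_divisors] at hc
      exact hc.1.1
    have hBb : ∀ c ∈ SparseSet s (kap 1), c ∣ q → c ∣ G.lcm id := by
      intro c hc hcq
      have : c ∈ G := by
        rw [hG, mem_filter, Nat.mem_divisors]
        exact ⟨⟨hcq, by omega⟩, hc⟩
      exact Finset.dvd_lcm this
    obtain ⟨hb2, hkey⟩ := fails_imp hs h0D hC hT h1 h3 hbq hBb h4
    set b := G.lcm id with hb
    refine ⟨b, hbq, ?_, ?_⟩
    · have hb2r : (2 : ℝ) ≤ b := by exact_mod_cast hb2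
      have hlb : 0 < Real.log b := Real.log_pos (by linarith)
      have hbX : (b : ℝ) ≤ X := by
        have : b ≤ X := (Nat.le_of_dvd (by omega) hbq).trans h2
        exact_mod_cast this
      have hlbL : Real.log b ≤ L := Real.log_le_log (by linarith) hbX
      have hmb : max 1 (Real.log (Real.log b)) ≤ m :=
        max_le_max (le_refl _) (Real.log_le_log hlb hlbL)
      have hqL : L / 2 < Real.log q := by
        have h5 : (X : ℝ) < (q : ℝ) * q := by
          have : X < q * q := not_le.1 hq1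
          exact_mod_cast this
        have hq0 : (0 : ℝ) < q := by exact_mod_cast (by omega : 0 < q)
        have h6 : L < Real.log ((q : ℝ) * q) := Real.log_lt_log (by linarith) h5
        rw [Real.log_mul hq0.ne' hq0.ne'] at h6
        linarith
      have h7 : L / 2 < m * Real.log b := by
        have := mul_le_mul_of_nonneg_right hmb hlb.le
        linarith
      have h8 : y ^ 2 / 2 < Real.log b := by
        rw [hy2, div_div, div_lt_iff₀ (by positivity)]
        linarith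
      rw [hZ, ← Real.lt_log_iff_exp_lt (by linarith)]
      exact h8
    · rw [Nat.mem_smoothNumbers']
      intro p hp hpb
      have h5 : ∃ c ∈ G, p ∣ c := by
        have h6 : p ∣ ∏ c ∈ G, c := hpb.trans (by
          rw [hb]
          exact Finset.lcm_dvd fun c hc => Finset.dvd_prod_of_mem (fun c => c) hc)
        exact (hp.prime.dvd_finsetProd_iff fun c => c).1 h6
      obtain ⟨c, hc, hpc⟩ := h5
      rw [hG, mem_filter, Nat.mem_divisors] at hc
      have hcT : (c : ℝ) ≤ T := by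
        by_contra hcon
        push Not at hcon
        exact hq2 c hc.2 hcon hc.1.1
      have hcT' : c ≤ T := by exact_mod_cast hcT
      have hc0 : 0 < c := Nat.pos_of_dvd_of_pos hc.1.1 (by omega)
      have := Nat.le_of_dvd hc0 hpc
      omega
  have hc1 : (F1.card : ℝ) ≤ X * Real.exp (-(y / 20)) := by
    have h1 : F1 ⊆ Icc 1 (Nat.sqrt X) := by
      intro q hq
      rw [hF1, mem_filter] at hq
      obtain ⟨h1, _⟩ := hF q hq.1
      rw [mem_Icc]
      exact ⟨by omega, Nat.le_sqrt.2 hq.2⟩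
    have h2 : F1.card ≤ Nat.sqrt X := by simpa using card_le_card h1
    have h3 : (F1.card : ℝ) ≤ √X := by
      have h4 : (F1.card : ℝ) ≤ (Nat.sqrt X : ℝ) := by exact_mod_cast h2
      exact h4.trans Real.nat_sqrt_le_real_sqrt
    refine h3.trans ?_
    have h5 : √(X : ℝ) = X * Real.exp (-(L / 2)) := by
      have h6 : √(X : ℝ) = Real.exp (L / 2) := by
        rw [Real.sqrt_eq_rpow, Real.rpow_def_of_pos (by linarith)]
        congr 1
        rw [hL]; ring
      have h7 : (X : ℝ) = Real.exp L := by rw [hL, Real.exp_log (by linarith)]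
      rw [h6, h7, ← Real.exp_add]
      congr 1; ring
    rw [h5]
    refine mul_le_mul_of_nonneg_left (Real.exp_le_exp.2 ?_) (by linarith)
    nlinarith
  have hc2 : (F2.card : ℝ) ≤ X * (6 * Real.exp (-(y / 20))) := by
    have h1 := mult_count_tail hs hT0 X F2 fun q hq => by
      rw [hF2, mem_filter] at hq
      obtain ⟨h1, h2, _⟩ := hF q hq.1
      exact ⟨by omega, h2, hq.2⟩
    refine h1.trans (mul_le_mul_of_nonneg_left ?_ (by linarith))
    have h2 : 0 < Real.exp (y / 20) := Real.exp_pos _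
    have h3 : Real.exp (y / 20) * Real.exp (y / 20) = Real.exp (y / 10) := by
      rw [← Real.exp_add]; congr 1; ring
    have h4 : Real.exp (y / 20) * (2 / 3) ≤ √T := by
      apply Real.le_sqrt_of_sq_le
      nlinarith
    have h5 : 4 * √(T : ℝ) / T = 4 / √T := by
      have h6 : 0 < √(T : ℝ) := Real.sqrt_pos.2 hT0
      have h7 : √(T : ℝ) * √T = T := Real.mul_self_sqrt hT0.le
      rw [div_eq_div_iff hT0.ne' h6.ne', mul_assoc, h7]
    rw [h5, Real.exp_neg, div_le_iff₀ (Real.sqrt_pos.2 hT0)]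
    have h6 : 6 * (Real.exp (y / 20))⁻¹ * (Real.exp (y / 20) * (2 / 3)) = 4 := by
      field_simp; norm_num
    rw [← h6]
    exact mul_le_mul_of_nonneg_left h4 (by positivity)
  have hc3 : (F3.card : ℝ) ≤ X * Real.exp (-(y / 20)) := by
    have h1 := smooth_count hT8 (Real.exp_pos (y ^ 2 / 2)) X F3 fun q hq => by
      rw [hF3, mem_filter] at hq
      obtain ⟨h1, h2, _⟩ := hF q hq.1
      exact ⟨by omega, h2, hq.2⟩
    refine h1.trans (mul_le_mul_of_nonneg_left ?_ (by linarith))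
    rw [← Real.exp_mul, ← Real.exp_add]
    apply Real.exp_le_exp.2
    have h2 : 10 / y ≤ 1 / Real.log T := by
      rw [div_le_div_iff₀ (by linarith) hlT0]
      linarith
    have h3 : y ^ 2 / 2 * (10 / y) = 5 * y := by
      field_simp; ring
    have h4 : y ^ 2 / 2 * (10 / y) ≤ y ^ 2 / 2 * (1 / Real.log T) :=
      mul_le_mul_of_nonneg_left h2 (by positivity)
    have h5 : y ^ 2 / 2 * -(1 / Real.log T) = -(y ^ 2 / 2 * (1 / Real.log T)) := by ring
    rw [h5]
    linarith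
  have h1 : F.card ≤ F1.card + (F2.card + F3.card) :=
    (card_le_card hcover).trans ((card_union_le _ _).trans
      (Nat.add_le_add_left (card_union_le _ _) _))
  have h2 : (F.card : ℝ) ≤ F1.card + (F2.card + F3.card) := by exact_mod_cast h1
  calc (F.card : ℝ) ≤ F1.card + (F2.card + F3.card) := h2
    _ ≤ X * Real.exp (-(y / 20)) + (X * (6 * Real.exp (-(y / 20))) + X * Real.exp (-(y / 20))) :=
        add_le_add hc1 (add_le_add hc2 hc3)
    _ = _ := by ring

end Pool.Agent.Lib.P1aceS
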